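import Pool.Agent.LIFT.Numbers4

/-!
# SALES: the numbers (row G1, helper44)

As `LIFT.numbers4`; `lam` and `b` do not depend on `γ`.
-/

set_option autoImplicit false

open Filter Topology

namespace SALES

open LIFT.h44

namespace h44

/-- everything for one `q` -/
theorem in_q5 (β' : ℝ) (hβ : 0 < β') :
    ∃ (lam : ℝ) (b : ℕ), 1 < lam ∧ 0 < b ∧ lam ^ 8 ≤ 4 * b ∧
      ∀ γ : ℝ, 0 < γ → γ ≤ 1 → ∀ q₀ : ℕ, ∃ q₁ : ℕ, ∀ q : ℕ, q₁ ≤ q → q₀ ≤ q ∧ 12 ≤ q ∧ 32 ≤ β' * q ∧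
      ∀ x : ℝ, x ≤ q / 2 →
      ∀ d k r : ℕ, β' * q ≤ d + 1 → β' * q ≤ k → 0 < r → (r : ℝ) ≤ 2 * Real.exp (q / 2) →
        2 * 2 ^ (3 * q) / lam ^ (d + 1) * Real.sqrt (24 ^ (3 * q)) ≤ γ / 2 ∧
        2 * (2 * 2 ^ (3 * q) * (4 * r / γ) / lam ^ (d + 1) * Real.sqrt (24 ^ (3 * q) * r))
          + Real.exp (-x) * (2 * 2 ^ (3 * q) / lam ^ (d + 1) * Real.sqrt (24 ^ (3 * q)))
          + Real.exp (-x) * γ / 8 + Real.sqrt (2 ^ (3 * q) / (b : ℝ) ^ k)
          < Real.exp (-x) * γ / 2 := by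
  set lam : ℝ := Real.exp (10 / β') with hlam
  have hlam1 : 1 < lam := Real.one_lt_exp_iff.2 (by positivity)
  obtain ⟨b, hb⟩ := exists_nat_ge (max (max (0 : ℝ) (lam ^ 8)) (max (Real.exp (5 / β')) 1))
  have hb2 : lam ^ 8 ≤ b := le_trans (le_trans (le_max_right _ _) (le_max_left _ _)) hb
  have hb3 : Real.exp (5 / β') ≤ b := le_trans (le_trans (le_max_left _ _) (le_max_right _ _)) hb
  have hb4 : (1 : ℝ) ≤ b := le_trans (le_trans (le_max_right _ _) (le_max_right _ _)) hb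
  have hb0 : (0 : ℝ) < b := by linarith
  refine ⟨lam, b, hlam1, by exact_mod_cast hb0, by linarith, fun γ hγ hγ1 q₀ => ?_⟩
  have hqr : Tendsto (fun q : ℕ => β' * (q : ℝ)) atTop atTop :=
    tendsto_natCast_atTop_atTop.const_mul_atTop hβ
  have hex0 : Tendsto (fun q : ℕ => Real.exp (-(q : ℝ))) atTop (𝓝 0) :=
    Real.tendsto_exp_neg_atTop_nhds_zero.comp tendsto_natCast_atTop_atTop
  have hex : Tendsto (fun q : ℕ => 64 / γ * Real.exp (-(q : ℝ))) atTop (𝓝 0) := by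
    simpa using hex0.const_mul (64 / γ)
  have hT : 0 < γ / 16 := by positivity
  have hT2 : 0 < γ ^ 2 / 256 := by positivity
  obtain ⟨q₁, hq₁⟩ := (((hex.eventually (gt_mem_nhds hT)).and
    (hex0.eventually (gt_mem_nhds hT2))).and
    ((hqr.eventually_ge_atTop 32).and (eventually_ge_atTop (q₀ + 12)))).exists_forall_of_atTop
  refine ⟨q₁, fun q hq => ?_⟩
  obtain ⟨⟨h1, h1'⟩, h2, h3⟩ := hq₁ q hq
  have hq0 : (12 : ℝ) ≤ q := by
    have : 12 ≤ q := by omega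
    exact_mod_cast this
  refine ⟨by omega, by omega, h2, ?_⟩
  intro x hx d k r hd hk hr hr2
  have hr0 : (0 : ℝ) < r := by exact_mod_cast hr
  set δ : ℝ := Real.exp (-x) with hδ
  have hδ0 : 0 < δ := Real.exp_pos _
  have hδq : Real.exp (-(q / 2 : ℝ)) ≤ δ := Real.exp_le_exp.2 (by linarith)
  have g1 : (2 : ℝ) ^ (3 * q) ≤ Real.exp (21 / 10 * q) := by
    refine (two_pow_le (3 * q)).trans (Real.exp_le_exp.2 (le_of_eq ?_))
    push_cast
    ring
  have g4 : Real.exp (10 * q) ≤ lam ^ (d + 1) := by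
    rw [hlam, ← Real.exp_nat_mul]
    apply Real.exp_le_exp.2
    push_cast
    have g5 : (10 : ℝ) * q = 10 / β' * (β' * q) := by
      field_simp
    rw [g5, mul_comm ((d : ℝ) + 1)]
    exact mul_le_mul_of_nonneg_left hd (by positivity)
  -- the factor without `r`
  have fA : 2 * 2 ^ (3 * q) / lam ^ (d + 1) * Real.sqrt (24 ^ (3 * q)) ≤ γ / 16 := by
    have e1 : 2 * 2 ^ (3 * q) / lam ^ (d + 1) * Real.sqrt (24 ^ (3 * q)) ≤
        2 * Real.exp (21 / 10 * q) / Real.exp (10 * q) * Real.exp (11 / 2 * q) := by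
      have := sqrt24 q
      gcongr
    refine e1.trans ?_
    have e2 : 2 * Real.exp (21 / 10 * (q : ℝ)) / Real.exp (10 * q) * Real.exp (11 / 2 * q) =
        2 * (Real.exp (21 / 10 * q) * (Real.exp (10 * q))⁻¹ * Real.exp (11 / 2 * q)) := by ring
    rw [e2, ← Real.exp_neg, ← Real.exp_add, ← Real.exp_add]
    have e3 : Real.exp (21 / 10 * (q : ℝ) + -(10 * q) + 11 / 2 * q) ≤ Real.exp (-(q : ℝ)) :=
      Real.exp_le_exp.2 (by linarith)
    have e4 : 2 * Real.exp (-(q : ℝ)) ≤ 64 / γ * Real.exp (-(q : ℝ)) := by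
      apply mul_le_mul_of_nonneg_right _ (Real.exp_pos _).le
      rw [le_div_iff₀ hγ]
      linarith
    linarith
  -- the term with `r`
  have fB : 2 * (2 * 2 ^ (3 * q) * (4 * r / γ) / lam ^ (d + 1) *
      Real.sqrt (24 ^ (3 * q) * r)) ≤ δ * (γ / 16) := by
    have e1 : 2 * (2 * 2 ^ (3 * q) * (4 * r / γ) / lam ^ (d + 1) *
        Real.sqrt (24 ^ (3 * q) * r)) ≤
        2 * (2 * Real.exp (21 / 10 * q) * (4 * (2 * Real.exp (q / 2)) / γ) / Real.exp (10 * q) *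
          (2 * Real.exp (11 / 2 * q))) := by
      have := sqrt24r q hr0.le hr2
      gcongr
    refine e1.trans ?_
    have e2 : 2 * (2 * Real.exp (21 / 10 * (q : ℝ)) * (4 * (2 * Real.exp (q / 2)) / γ) /
        Real.exp (10 * q) * (2 * Real.exp (11 / 2 * q))) =
        64 / γ * (Real.exp (21 / 10 * q) * Real.exp (q / 2) * (Real.exp (10 * q))⁻¹ *
          Real.exp (11 / 2 * q)) := by ring
    rw [e2, ← Real.exp_neg, ← Real.exp_add, ← Real.exp_add, ← Real.exp_add]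
    have e3 : Real.exp (21 / 10 * (q : ℝ) + q / 2 + -(10 * q) + 11 / 2 * q) ≤
        Real.exp (-(q / 2 : ℝ)) * Real.exp (-(q : ℝ)) := by
      rw [← Real.exp_add]
      exact Real.exp_le_exp.2 (by linarith)
    have e4 : 64 / γ * Real.exp (21 / 10 * (q : ℝ) + q / 2 + -(10 * q) + 11 / 2 * q) ≤
        64 / γ * (Real.exp (-(q / 2 : ℝ)) * Real.exp (-(q : ℝ))) :=
      mul_le_mul_of_nonneg_left e3 (by positivity)
    refine e4.trans ?_
    have e5 : 64 / γ * (Real.exp (-(q / 2 : ℝ)) * Real.exp (-(q : ℝ))) =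
        Real.exp (-(q / 2 : ℝ)) * (64 / γ * Real.exp (-(q : ℝ))) := by ring
    rw [e5]
    exact mul_le_mul hδq h1.le (by positivity) hδ0.le
  -- the last term
  have fD : Real.sqrt (2 ^ (3 * q) / (b : ℝ) ^ k) ≤ δ * (γ / 16) := by
    rw [Real.sqrt_le_left (by positivity)]
    have k2 : Real.exp (5 * q) ≤ (b : ℝ) ^ k := by
      refine le_trans ?_ (pow_le_pow_left₀ (Real.exp_pos _).le hb3 k)
      rw [← Real.exp_nat_mul]
      apply Real.exp_le_exp.2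
      have g5 : (5 : ℝ) * q = 5 / β' * (β' * q) := by
        field_simp
      rw [g5, mul_comm (k : ℝ)]
      exact mul_le_mul_of_nonneg_left hk (by positivity)
    have k3 : (2 : ℝ) ^ (3 * q) / (b : ℝ) ^ k ≤ Real.exp (21 / 10 * q) / Real.exp (5 * q) := by
      gcongr
    refine k3.trans ?_
    have k4 : Real.exp (21 / 10 * q) / Real.exp (5 * q) ≤
        Real.exp (-(q / 2 : ℝ)) ^ 2 * Real.exp (-(q : ℝ)) := by
      rw [← Real.exp_sub, ← Real.exp_nat_mul, ← Real.exp_add]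
      apply Real.exp_le_exp.2
      push_cast
      linarith
    refine k4.trans ?_
    have k5 : (δ * (γ / 16)) ^ 2 = δ ^ 2 * (γ ^ 2 / 256) := by ring
    rw [k5]
    exact mul_le_mul (pow_le_pow_left₀ (Real.exp_pos _).le hδq 2) h1'.le (Real.exp_pos _).le
      (by positivity)
  refine ⟨by linarith, ?_⟩
  have fC : δ * (2 * 2 ^ (3 * q) / lam ^ (d + 1) * Real.sqrt (24 ^ (3 * q))) ≤ δ * (γ / 16) :=
    mul_le_mul_of_nonneg_left fA hδ0.le
  have hpos : 0 < δ * γ := by positivity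
  linarith

end h44

/-- G1: the numbers -/
theorem numbers5 (β' : ℝ) (hβ : 0 < β') :
    ∃ (lam : ℝ) (b : ℕ), 1 < lam ∧ 0 < b ∧ lam ^ 8 ≤ 4 * b ∧ ∀ γ : ℝ, 0 < γ → γ ≤ 1 → ∀ q₀ : ℕ,
      ∃ c : ℝ, 0 < c ∧ ∃ n₀ : ℕ, ∀ n : ℕ, n₀ ≤ n → ∃ q : ℕ, q₀ ≤ q ∧ 0 < q ∧ (3 * q) * b ≤ n ∧
      n ≤ 6 * b * q ∧ 32 ≤ β' * q ∧ Real.exp (-(c * n)) ≤ 1 / 8 ∧
      ∀ d k r : ℕ, β' * q ≤ d + 1 → β' * q ≤ k → 0 < r → (r : ℝ) ≤ Real.exp (c * n) + 1 →
        2 * 2 ^ (3 * q) / lam ^ (d + 1) * Real.sqrt (24 ^ (3 * q)) ≤ γ / 2 ∧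
        2 * (2 * 2 ^ (3 * q) * (4 * r / γ) / lam ^ (d + 1) * Real.sqrt (24 ^ (3 * q) * r))
          + Real.exp (-(c * n)) * (2 * 2 ^ (3 * q) / lam ^ (d + 1) * Real.sqrt (24 ^ (3 * q)))
          + Real.exp (-(c * n)) * γ / 8 + Real.sqrt (2 ^ (3 * q) / (b : ℝ) ^ k)
          < Real.exp (-(c * n)) * γ / 2 := by
  obtain ⟨lam, b, h1, h2, h4, h6⟩ := h44.in_q5 β' hβ
  refine ⟨lam, b, h1, h2, h4, fun γ hγ hγ1 q₀ => ?_⟩
  obtain ⟨q₁, h5⟩ := h6 γ hγ hγ1 q₀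
  have hb0 : (0 : ℝ) < b := by exact_mod_cast h2
  refine ⟨1 / (12 * b), by positivity, 3 * b * (q₁ + 1), fun n hn => ?_⟩
  have hb3 : 0 < 3 * b := by omega
  set q : ℕ := n / (3 * b) with hq
  have hq1 : 3 * b * q ≤ n := Nat.mul_div_le n (3 * b)
  have hq2 : n < 3 * b * (q + 1) := by
    have := Nat.lt_mul_div_succ n hb3
    rw [← hq] at this
    exact this
  have hqq : q₁ ≤ q := by
    by_contra hc
    push Not at hc
    have h6 : 3 * b * (q + 1) ≤ 3 * b * (q₁ + 1) := Nat.mul_le_mul_left _ (by omega)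
    omega
  obtain ⟨g1, g2, g3, g4⟩ := h5 q hqq
  have hq12 : (12 : ℝ) ≤ q := by exact_mod_cast g2
  have hlo : 3 * (q : ℝ) ≤ 1 / (12 * b) * n * 12 := by
    have h6 : (3 * (b : ℝ) * q) ≤ n := by exact_mod_cast hq1
    have h7 : 1 / (12 * (b : ℝ)) * n * 12 = n / b := by
      field_simp
    rw [h7, le_div_iff₀ hb0]
    linarith
  have hhi : 1 / (12 * b) * (n : ℝ) * 12 ≤ 3 * (q + 1) := by
    have h6 : (n : ℝ) ≤ 3 * b * (q + 1) := by exact_mod_cast hq2.le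
    have h7 : 1 / (12 * (b : ℝ)) * n * 12 = n / b := by
      field_simp
    rw [h7, div_le_iff₀ hb0]
    linarith
  refine ⟨q, g1, by omega, ?_, ?_, g3, ?_, fun d k r hd hk hr hr2 => ?_⟩
  · calc 3 * q * b = 3 * b * q := by ring
      _ ≤ n := hq1
  · calc n ≤ 3 * b * (q + 1) := hq2.le
      _ ≤ 3 * b * (2 * q) := Nat.mul_le_mul_left _ (by omega)
      _ = 6 * b * q := by ring
  · have e1 : Real.exp (-(1 / (12 * b) * n)) ≤ Real.exp (-3) := by
      apply Real.exp_le_exp.2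
      linarith
    refine e1.trans ?_
    have e2 : (2 : ℝ) ≤ Real.exp 1 := by
      have := Real.add_one_le_exp (1 : ℝ)
      linarith
    have e3 : (8 : ℝ) ≤ Real.exp 3 := by
      have e4 : Real.exp 3 = Real.exp 1 ^ 3 := by
        rw [← Real.exp_nat_mul]
        norm_num
      rw [e4]
      calc (8 : ℝ) = 2 ^ 3 := by norm_num
        _ ≤ Real.exp 1 ^ 3 := pow_le_pow_left₀ (by norm_num) e2 3
    rw [Real.exp_neg, one_div]
    exact inv_anti₀ (by norm_num) e3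
  · refine g4 (1 / (12 * b) * n) (by linarith) d k r hd hk hr (hr2.trans ?_)
    have e2 : Real.exp (1 / (12 * b) * n) ≤ Real.exp (q / 2) := by
      apply Real.exp_le_exp.2
      linarith
    have e3 : 1 ≤ Real.exp ((q : ℝ) / 2) := Real.one_le_exp (by positivity)
    linarith

end SALES
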