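import Pool.Agent.SALES.Inst
import Pool.Agent.SALES.Numbers5
import Pool.Agent.LIFT.FinalCore4

/-!
# SALES: the instance of bounded degree and the impossibility (helper93)
-/

set_option autoImplicit false

open scoped BigOperators Matrix

namespace SALES

open SDX LIFT LIFT.h93d

theorem final_core5 (ε : ℝ) (hε : 0 < ε) :
    ∃ (b Δ C₀ : ℕ), 0 < b ∧ 0 < Δ ∧ ∀ γ : ℝ, 0 < γ → γ ≤ 1 →
      ∃ c : ℝ, 0 < c ∧ ∃ n₀ : ℕ, ∀ n : ℕ, n₀ ≤ n →
      ∃ (m M : ℕ) (A : Fin M → Fin 3 → Fin m) (s : Fin M → Bool)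
        (mu : (Fin m → Fin b) → (Fin m × Fin b → Bool) → ℝ),
      0 < m ∧ 0 < M ∧ m * b ≤ n ∧ M ≤ Δ * n ∧ n ≤ C₀ * M ∧ (∀ e, Function.Injective (A e)) ∧
      (∀ j, ((Finset.univ : Finset (Fin M)).filter fun e => ∃ t, A e t = j).card ≤ Δ) ∧
      (∀ y : Fin m → Bool, (((Finset.univ : Finset (Fin M)).filter fun e =>
        ∏ t, SDX.sg (y (A e t)) = SDX.sg (s e)).card : ℝ) ≤ (1 / 2 + ε) * M) ∧
      (∀ S, ∑ x, mu S x = 2 ^ (m * b)) ∧
      (∀ (u : (Fin m × Fin b → Bool) → ℝ) (v : (Fin m → Fin b) → ℝ), (∀ x, 0 ≤ u x ∧ u x ≤ 1) →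
        (∀ S, 0 ≤ v S ∧ v S ≤ 1) →
        -(γ / 2 * ((b : ℝ) ^ m * 2 ^ (m * b))) ≤ ∑ S, ∑ x, v S * (u x * mu S x)) ∧
      ∀ (r : ℕ) (E : Type) [AddCommGroup E] [Module ℝ E]
        (𝓐 : AffineSubspace ℝ (E × Matrix (Fin r) (Fin r) ℝ))
        (𝒳 : Finset (Fin m × Fin b → Bool)) (𝒮 : Finset (Fin m → Fin b))
        (pt : (Fin m × Fin b → Bool) → E × Matrix (Fin r) (Fin r) ℝ)
        (obj : (Fin m → Fin b) → (E × Matrix (Fin r) (Fin r) ℝ) →ᵃ[ℝ] ℝ),
        (r : ℝ) ≤ Real.exp (c * n) →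
        γ * ((b : ℝ) ^ m * 2 ^ (m * b)) ≤ ∑ S ∈ 𝒮, ∑ x ∈ 𝒳, mu S x →
        (∀ x ∈ 𝒳, pt x ∈ 𝓐 ∧ (pt x).2.PosSemidef) →
        (∀ S ∈ 𝒮, ∀ x ∈ 𝒳, obj S (pt x) = 3 / 4 + (((Finset.univ : Finset (Fin M)).filter
          fun e => ∏ t, SDX.sg (SDX.rs S x (A e t)) = SDX.sg (s e)).card : ℝ) / (4 * M)) →
        (∀ S ∈ 𝒮, ∀ p ∈ 𝓐, p.2.PosSemidef → obj S p < 1 - Real.exp (-(c * n))) → False := by
  obtain ⟨Δ, hΔ, β, hβ, q₁, hinst⟩ := exists_instance5 ε hε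
  obtain ⟨lam, b, hlam, hb, hlb, hnum⟩ := numbers5 (β / 16) (by positivity)
  refine ⟨b, Δ, 6 * b, hb, hΔ, fun γ hγ hγ1 => ?_⟩
  obtain ⟨c, hc, n₀, hnum⟩ := hnum γ hγ hγ1 q₁
  refine ⟨c, hc, n₀, fun n hn => ?_⟩
  obtain ⟨q, hq₀, hq, hqn, hnq, h32, hδ8, hfin⟩ := hnum n hn
  obtain ⟨a, s, hsat, hexp, hdeg⟩ := hinst q hq₀
  have hM : 0 < Δ * q := Nat.mul_pos hΔ hq
  have hq' : (0 : ℝ) < q := by exact_mod_cast hq
  have hΔ' : (0 : ℝ) < Δ := by exact_mod_cast hΔ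
  have hb' : (0 : ℝ) < b := by exact_mod_cast hb
  -- the pseudo-density
  set t : ℕ := ⌊β * q / 2⌋₊ with ht
  set w : ℕ := t / 4 with hw
  set d : ℕ := w / 2 with hd
  have h1 : (t : ℝ) ≤ β * q / 2 := Nat.floor_le (by positivity)
  have h2 : β * q / 2 < t + 1 := Nat.lt_floor_add_one _
  have h3 : 255 ≤ t := by
    have : (255 : ℝ) < t + 1 := by linarith
    have : 255 < t + 1 := by exact_mod_cast this
    omega
  have hβd : β / 16 * q ≤ d + 1 := by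
    have h4 : t + 1 ≤ 8 * (d + 1) := by omega
    have h5 : (t : ℝ) + 1 ≤ 8 * (d + 1) := by exact_mod_cast h4
    linarith
  have hβk : β / 16 * q ≤ ((w - 2 : ℕ) : ℝ) := by
    have h4 : t + 1 ≤ 8 * (w - 2) := by omega
    have h5 : (t : ℝ) + 1 ≤ 8 * ((w - 2 : ℕ) : ℝ) := by exact_mod_cast h4
    linarith
  have hexp2 : ∀ C : Finset (Fin (Δ * q)), C.Nonempty → C.card ≤ 2 * t →
      (C.card : ℝ) / 4 ≤ ((odd (vars a) C).card : ℝ) := fun C hC hCt => by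
    rw [odd_card]
    refine hexp C hC ?_
    have : (C.card : ℝ) ≤ 2 * t := by exact_mod_cast hCt
    linarith
  obtain ⟨D, hD1, hD2, hD3, hD4, hD5⟩ := xor_pd3 (t := t) (w := w) (d := d) (vars a) s (by omega)
    (by omega) (by omega) (vars_card a) (fun C hC hCt => by
      have h6 := hexp2 C hC hCt
      have h7 : (0 : ℝ) < C.card := by exact_mod_cast hC.card_pos
      have h8 : (0 : ℝ) < ((odd (vars a) C).card : ℝ) := by linarith
      exact Finset.card_pos.1 (by exact_mod_cast h8))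
    (fun C hC hCt => by
      have h6 := hexp2 C (Finset.card_pos.1 (by omega)) hCt
      have h7 : (t : ℝ) < C.card := by exact_mod_cast hC
      have h8 : (w : ℝ) * 4 ≤ t := by
        have : w * 4 ≤ t := Nat.div_mul_le_self _ _
        exact_mod_cast this
      have h9 : (w : ℝ) < ((odd (vars a) C).card : ℝ) := by linarith
      exact_mod_cast h9)
  have h2pos : (0 : ℝ) < 2 ^ (3 * q) := by positivity
  have hDsum : ∑ y, D y = 2 ^ (3 * q) := by
    have h6 := hD3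
    rw [coef, Fintype.card_fin, div_eq_iff h2pos.ne', one_mul] at h6
    simpa [chr] using h6
  have hqn1 : q ≤ n := by
    have h4 : q * 1 ≤ 3 * q * b := by
      calc q * 1 ≤ q * (3 * b) := Nat.mul_le_mul_left _ (by omega)
        _ = 3 * q * b := by ring
    omega
  refine ⟨3 * q, Δ * q, fun e => ve a e, s, fun S x => D (rs S x), by positivity, hM, hqn, ?_, ?_,
    fun e => (ve a e).injective, ?_, ?_, ?_, ?_, ?_⟩
  · exact Nat.mul_le_mul_left _ hqn1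
  · refine hnq.trans (Nat.mul_le_mul_left _ ?_)
    exact Nat.le_mul_of_pos_left q hΔ
  · intro j
    refine le_trans (Finset.card_le_card ?_) (hdeg (finProdFinEquiv.symm j).1
      (finProdFinEquiv.symm j).2)
    intro e he
    rw [Finset.mem_filter] at he ⊢
    refine ⟨Finset.mem_univ _, ?_⟩
    obtain ⟨_, t', ht'⟩ := he
    have h8 : finProdFinEquiv (t', a e t') = j := ht'
    rw [← h8, Equiv.symm_apply_apply]
  · intro y
    have h1 := hsat (y ∘ finProdFinEquiv)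
    push_cast
    refine le_trans (le_of_eq ?_) h1
    congr 1
  · intro S
    have h6 := sum_rs S D
    rw [hDsum] at h6
    have h7 : (2 : ℝ) ^ (3 * q) * (∑ x : Fin (3 * q) × Fin b → Bool, D (rs S x))
        = 2 ^ (3 * q) * 2 ^ (3 * q * b) := by rw [h6]; ring
    exact mul_left_cancel₀ h2pos.ne' h7
  · intro u v hu hv
    have h6 := rect4 (m := 3 * q) (d := d) hb lam (2 ^ (3 * q)) hlam hlb h2pos D hD2 hD5 u hu v hv
    have h7 := (hfin d (w - 2) 1 hβd hβk one_pos (by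
      have := Real.exp_pos (c * n)
      push_cast
      linarith)).1
    refine le_trans (neg_le_neg ?_) h6
    calc (b : ℝ) ^ (3 * q) * 2 ^ (3 * q * b) * (2 * 2 ^ (3 * q) / lam ^ (d + 1)
          * Real.sqrt (24 ^ (3 * q)))
        ≤ (b : ℝ) ^ (3 * q) * 2 ^ (3 * q * b) * (γ / 2) :=
          mul_le_mul_of_nonneg_left h7 (by positivity)
      _ = γ / 2 * ((b : ℝ) ^ (3 * q) * 2 ^ (3 * q * b)) := by ring
  intro r E _ _ 𝓐 𝒳 𝒮 pt obj hr hrect hpt hval hno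
  set δ : ℝ := Real.exp (-(c * n)) with hδdef
  have hδ : 0 < δ := Real.exp_pos _
  -- the factorisation
  set τ : ℝ := δ * γ / (8 * 2 ^ (3 * q)) with hτ
  have hτ0 : 0 < τ := by positivity
  have hτ1 : τ ≤ 1 / 4 := by
    rw [hτ, div_le_iff₀ (by positivity)]
    have h10 : (1 : ℝ) ≤ 2 ^ (3 * q) := one_le_pow₀ (by norm_num)
    have h11 : δ * γ ≤ 1 := mul_le_one₀ (by linarith) hγ.le hγ1
    linarith
  have hτ2 : 2 ^ (3 * q) * τ = δ * γ / 8 := by
    rw [hτ]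
    field_simp
  obtain ⟨P, Q, hP, hQ, hP0, hQ0, hPQ⟩ := factor5 𝓐 δ 𝒳 pt hpt 𝒮
    (fun S => AffineMap.const ℝ _ (1 : ℝ) - obj S)
    (fun S x => 1 - (3 / 4 + (((Finset.univ : Finset (Fin (Δ * q))).filter
          fun e => ∏ t, SDX.sg (SDX.rs S x (ve a e t)) = SDX.sg (s e)).card : ℝ)
            / (4 * (Δ * q : ℕ))))
    (fun S hS x hx => by
      rw [← hval S hS x hx]
      rfl)
    (fun S hS p hp hp2 => by
      have h12 := hno S hS p hp hp2
      change δ ≤ 1 - obj S p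
      linarith) τ hτ0
  have hlow : ∀ A : Finset (Fin (3 * q)), A.card < w - 2 →
      coef A (fun y => D y * ff a s 0 y) = 0 := by
    intro A hA
    rw [coef_low hM a s 0 D A fun e => hD4 e A (by omega), zero_mul, neg_zero]
  refine main4 (m := 3 * q) (b := b) (r := r + 1) (d := d) hb (Nat.succ_pos r) lam (2 ^ (3 * q))
    γ δ τ (Real.sqrt (2 ^ (3 * q) / (b : ℝ) ^ (w - 2)))
    hlam hlb h2pos hγ hγ1 hδ hτ0.le hτ1 D (ff a s 0) hD2 hD5 hDsum ?_ ?_ ?_ 𝒳 𝒮 hrect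
    P hP Q hQ hP0 hQ0 ?_ ?_
  · intro y
    rw [← frac hM]
    have h13 : (0 : ℝ) ≤ (((Finset.univ : Finset (Fin (Δ * q))).filter fun e =>
      ∏ t, sg (y (ve a e t)) = sg (s e)).card : ℝ) / (4 * (Δ * q : ℕ)) := by positivity
    linarith
  · have h14 := hlow ∅ (by rw [Finset.card_empty]; omega)
    rw [coef, Fintype.card_fin, div_eq_iff h2pos.ne', zero_mul] at h14
    simpa only [chr, Finset.prod_empty, mul_one] using h14
  · refine Real.sqrt_le_sqrt ?_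
    have h14 := var_le (k := w - 2) hb 0 (fun y => D y * ff a s 0 y)
      (fun A hA => by rw [hlow A hA, abs_zero])
      (coef_le hM a s 0 le_rfl (by norm_num) D hD1)
    refine h14.trans (le_of_eq ?_)
    ring
  · intro S hS x hx
    rw [← frac hM, sub_zero]
    exact hPQ S hS x hx
  · rw [hτ2]
    exact (hfin d (w - 2) (r + 1) hβd hβk (Nat.succ_pos r) (by push_cast; linarith)).2

end SALES
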