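import Pool.Agent.SALES.Split

/-!
# SALES: counting (row C)

A defect at a node affects at most `2 Δ` equations; the reading edges of the other violated
equations are long.
-/

set_option autoImplicit false

namespace SALES

section
variable {P U K Z : ℕ}

/-- `v` is one of the nodes of the row `u` (with the next node). -/
def InZone (v : Node P U K) (u : Fin U) : Prop :=
  v = .e u ∨ v = .f u ∨ (∃ k, v = .l u k ∨ v = .r u k ∨ v = .g u k) ∨ v = nxt u

theorem zone_of {G : Node P U K → Prop} {u : Fin U} (h : ∀ v, InZone v u → G v) : Zone G u :=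
  ⟨h _ (Or.inl rfl), h _ (Or.inr (Or.inl rfl)),
    fun k => ⟨h _ (Or.inr (Or.inr (Or.inl ⟨k, Or.inl rfl⟩))),
      h _ (Or.inr (Or.inr (Or.inl ⟨k, Or.inr (Or.inl rfl)⟩))),
      h _ (Or.inr (Or.inr (Or.inl ⟨k, Or.inr (Or.inr rfl)⟩)))⟩,
    h _ (Or.inr (Or.inr (Or.inr rfl)))⟩

theorem nxt_cases (u : Fin U) : (∃ u' : Fin U, u'.val = u.val + 1 ∧
    (nxt u : Node P U K) = .e u') ∨ (u.val + 1 = U ∧ (nxt u : Node P U K) = .o) := by
  unfold nxt
  split_ifs with h
  · exact Or.inl ⟨⟨u.val + 1, h⟩, rfl, rfl⟩
  · refine Or.inr ⟨?_, rfl⟩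
    have := u.isLt
    omega

/-- a node lies in at most two rows -/
theorem two_rows (hU : 0 < U) (v : Node P U K) :
    ∃ u₁ u₂ : Fin U, ∀ u, InZone v u → u = u₁ ∨ u = u₂ := by
  cases v with
  | d p =>
    refine ⟨⟨0, hU⟩, ⟨0, hU⟩, fun u h => ?_⟩
    rcases h with h | h | ⟨k, h | h | h⟩ | h
    · cases h
    · cases h
    · cases h
    · cases h
    · cases h
    · rcases nxt_cases (P := P) (K := K) u with ⟨u', _, h2⟩ | ⟨_, h2⟩
      · rw [h2] at h
        cases h
      · rw [h2] at h
        cases h
  | q p a =>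
    refine ⟨⟨0, hU⟩, ⟨0, hU⟩, fun u h => ?_⟩
    rcases h with h | h | ⟨k, h | h | h⟩ | h
    · cases h
    · cases h
    · cases h
    · cases h
    · cases h
    · rcases nxt_cases (P := P) (K := K) u with ⟨u', _, h2⟩ | ⟨_, h2⟩
      · rw [h2] at h
        cases h
      · rw [h2] at h
        cases h
  | e u₁ =>
    refine ⟨u₁, ⟨u₁.val - 1, by have := u₁.isLt; omega⟩, fun u h => ?_⟩
    rcases h with h | h | ⟨k, h | h | h⟩ | h
    · left
      exact (Node.e.inj h).symm
    · cases h
    · cases h
    · cases h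
    · cases h
    · rcases nxt_cases (P := P) (K := K) u with ⟨u', h1, h2⟩ | ⟨_, h2⟩
      · rw [h2] at h
        have h3 : u₁ = u' := Node.e.inj h
        right
        rw [Fin.ext_iff]
        subst h3
        show u.val = u₁.val - 1
        omega
      · rw [h2] at h
        cases h
  | f u₁ =>
    refine ⟨u₁, u₁, fun u h => ?_⟩
    rcases h with h | h | ⟨k, h | h | h⟩ | h
    · cases h
    · left
      exact (Node.f.inj h).symm
    · cases h
    · cases h
    · cases h
    · rcases nxt_cases (P := P) (K := K) u with ⟨u', h1, h2⟩ | ⟨_, h2⟩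
      · rw [h2] at h
        cases h
      · rw [h2] at h
        cases h
  | l u₁ k₁ =>
    refine ⟨u₁, u₁, fun u h => ?_⟩
    rcases h with h | h | ⟨k, h | h | h⟩ | h
    · cases h
    · cases h
    · left
      exact (Node.l.inj h).1.symm
    · cases h
    · cases h
    · rcases nxt_cases (P := P) (K := K) u with ⟨u', h1, h2⟩ | ⟨_, h2⟩
      · rw [h2] at h
        cases h
      · rw [h2] at h
        cases h
  | r u₁ k₁ =>
    refine ⟨u₁, u₁, fun u h => ?_⟩
    rcases h with h | h | ⟨k, h | h | h⟩ | h
    · cases h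
    · cases h
    · cases h
    · left
      exact (Node.r.inj h).1.symm
    · cases h
    · rcases nxt_cases (P := P) (K := K) u with ⟨u', h1, h2⟩ | ⟨_, h2⟩
      · rw [h2] at h
        cases h
      · rw [h2] at h
        cases h
  | g u₁ k₁ =>
    refine ⟨u₁, u₁, fun u h => ?_⟩
    rcases h with h | h | ⟨k, h | h | h⟩ | h
    · cases h
    · cases h
    · cases h
    · cases h
    · left
      exact (Node.g.inj h).1.symm
    · rcases nxt_cases (P := P) (K := K) u with ⟨u', h1, h2⟩ | ⟨_, h2⟩
      · rw [h2] at h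
        cases h
      · rw [h2] at h
        cases h
  | o =>
    refine ⟨⟨U - 1, by omega⟩, ⟨U - 1, by omega⟩, fun u h => ?_⟩
    rcases h with h | h | ⟨k, h | h | h⟩ | h
    · cases h
    · cases h
    · cases h
    · cases h
    · cases h
    · rcases nxt_cases (P := P) (K := K) u with ⟨u', h1, h2⟩ | ⟨h1, h2⟩
      · rw [h2] at h
        cases h
      · left
        rw [Fin.ext_iff]
        show u.val = U - 1
        omega

/-- `v` is one of the nodes which matter for `p` -/
def Touch (D : Data P U K) (v : Node P U K) (p : Fin P) : Prop :=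
  v = .d p ∨ (∃ a, v = .q p a) ∨ ∃ t, InZone v (D.var p t)

open Classical in
theorem card_touch (hU : 0 < U) (D : Data P U K) (bad : Fin P → Loc → Prop) (Δ : ℕ) (hΔ : 1 ≤ Δ)
    (hrel : ∀ u, (Finset.univ.filter fun p => (∃ a, bad p a) ∧ ∃ t, D.var p t = u).card ≤ Δ)
    (v : Node P U K) :
    (Finset.univ.filter fun p => (∃ a, bad p a) ∧ Touch D v p).card ≤ 2 * Δ := by
  by_cases hv : (∃ p, v = .d p) ∨ ∃ p a, v = .q p a
  · have h1 : ∃ p₀, ∀ p, Touch D v p → p = p₀ := by
      rcases hv with ⟨p₀, rfl⟩ | ⟨p₀, a₀, rfl⟩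
      · refine ⟨p₀, fun p h => ?_⟩
        rcases h with h | ⟨a, h⟩ | ⟨t, h⟩
        · exact (Node.d.inj h).symm
        · cases h
        · rcases h with h | h | ⟨k, h | h | h⟩ | h
          · cases h
          · cases h
          · cases h
          · cases h
          · cases h
          · rcases nxt_cases (P := P) (K := K) (D.var p t) with ⟨u', _, h2⟩ | ⟨_, h2⟩
            · rw [h2] at h
              cases h
            · rw [h2] at h
              cases h
      · refine ⟨p₀, fun p h => ?_⟩
        rcases h with h | ⟨a, h⟩ | ⟨t, h⟩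
        · cases h
        · exact (Node.q.inj h).1.symm
        · rcases h with h | h | ⟨k, h | h | h⟩ | h
          · cases h
          · cases h
          · cases h
          · cases h
          · cases h
          · rcases nxt_cases (P := P) (K := K) (D.var p t) with ⟨u', _, h2⟩ | ⟨_, h2⟩
            · rw [h2] at h
              cases h
            · rw [h2] at h
              cases h
    obtain ⟨p₀, h1⟩ := h1
    have h2 : (Finset.univ.filter fun p => (∃ a, bad p a) ∧ Touch D v p) ⊆ {p₀} := by
      intro p hp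
      rw [Finset.mem_filter] at hp
      rw [Finset.mem_singleton]
      exact h1 p hp.2.2
    have h3 := Finset.card_le_card h2
    rw [Finset.card_singleton] at h3
    omega
  · obtain ⟨u₁, u₂, h12⟩ := two_rows hU v
    have h2 : (Finset.univ.filter fun p => (∃ a, bad p a) ∧ Touch D v p) ⊆
        (Finset.univ.filter fun p => (∃ a, bad p a) ∧ ∃ t, D.var p t = u₁) ∪
        (Finset.univ.filter fun p => (∃ a, bad p a) ∧ ∃ t, D.var p t = u₂) := by
      intro p hp
      rw [Finset.mem_filter] at hp
      obtain ⟨-, hb, ht⟩ := hp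
      rw [Finset.mem_union, Finset.mem_filter, Finset.mem_filter]
      rcases ht with h | ⟨a, h⟩ | ⟨t, h⟩
      · exact absurd (Or.inl ⟨p, h⟩) hv
      · exact absurd (Or.inr ⟨p, a, h⟩) hv
      · rcases h12 _ h with h3 | h3
        · exact Or.inl ⟨Finset.mem_univ _, hb, t, h3⟩
        · exact Or.inr ⟨Finset.mem_univ _, hb, t, h3⟩
    have h3 := Finset.card_le_card h2
    have h4 := Finset.card_union_le
      (Finset.univ.filter fun p => (∃ a, bad p a) ∧ ∃ t, D.var p t = u₁)
      (Finset.univ.filter fun p => (∃ a, bad p a) ∧ ∃ t, D.var p t = u₂)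
    have h5 := hrel u₁
    have h6 := hrel u₂
    omega

end

open Classical in
theorem count {P U K Z : ℕ} (hP : 0 < P) (hU : 0 < U) (hK : 0 < K) (D : Data P U K)
    (bad : Fin P → Loc → Prop) (Δ : ℕ) (hΔ : 1 ≤ Δ)
    (hrel : ∀ u, (Finset.univ.filter fun p => (∃ a, bad p a) ∧ ∃ t, D.var p t = u).card ≤ Δ)
    (C : Equiv.Perm (City P U K Z)) (hC : C.IsCycleOn Set.univ) :
    ∃ x : Fin U → Bool, (Finset.univ.filter fun p => bad p fun t => x (D.var p t)).card
      ≤ 4 * Δ * cost D bad C := by
  have R := rel_tour (Z := Z) hP hU D C hC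
  obtain ⟨x, hx⟩ : ∃ x : Fin U → Bool, x = fun u => decide (relT C (.e u) (.f u)) := ⟨_, rfl⟩
  refine ⟨x, ?_⟩
  -- the two kinds of long edges
  obtain ⟨F1, hF1⟩ : ∃ F : Finset (City P U K Z),
    F = Finset.univ.filter fun y => ¬ Near0 D y (C y) := ⟨_, rfl⟩
  obtain ⟨F2, hF2⟩ : ∃ F : Finset (City P U K Z),
    F = Finset.univ.filter fun y => Near0 D y (C y) ∧ ¬ Near D bad y (C y) := ⟨_, rfl⟩
  have hcost : F1.card + F2.card ≤ cost D bad C := by
    unfold cost
    rw [← Finset.card_union_of_disjoint]
    · refine Finset.card_le_card fun y hy => ?_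
      rw [Finset.mem_filter]
      refine ⟨Finset.mem_univ _, fun hn => ?_⟩
      rw [Finset.mem_union, hF1, hF2, Finset.mem_filter, Finset.mem_filter] at hy
      rcases hy with hy | hy
      · apply hy.2
        rcases hn with hn | hn
        · exact Or.inl hn.1
        · exact Or.inr hn.1
      · exact hy.2.2 hn
    · rw [Finset.disjoint_left, hF1, hF2]
      intro y h1 h2
      rw [Finset.mem_filter] at h1 h2
      exact h1.2 h2.2.1
  have hdef := card_defect (Z := Z) D C
  rw [← hF1] at hdef
  -- the affected equations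
  obtain ⟨W, hW⟩ : ∃ W : Finset (Node P U K), W = Finset.univ.filter fun v => ¬ goodT D C v :=
    ⟨_, rfl⟩
  rw [← hW] at hdef
  obtain ⟨T, hT⟩ : ∃ T : Finset (Fin P),
    T = W.biUnion fun v => Finset.univ.filter fun p => (∃ a, bad p a) ∧ Touch D v p := ⟨_, rfl⟩
  have hTc : T.card ≤ W.card * (2 * Δ) := by
    rw [hT]
    exact Finset.card_biUnion_le_card_mul _ _ _ fun v _ => card_touch hU D bad Δ hΔ hrel v
  -- the other violated equations
  obtain ⟨B, hB⟩ : ∃ B : Finset (Fin P),
    B = Finset.univ.filter fun p => bad p fun t => x (D.var p t) := ⟨_, rfl⟩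
  have hgood : ∀ p ∈ B \ T, relT C (.d p) (.q p fun t => x (D.var p t)) := by
    intro p hp
    rw [Finset.mem_sdiff] at hp
    obtain ⟨hpB, hpT⟩ := hp
    rw [hB, Finset.mem_filter] at hpB
    have hall : ∀ v, Touch D v p → goodT D C v := by
      intro v hv
      by_contra hcon
      apply hpT
      rw [hT, Finset.mem_biUnion]
      refine ⟨v, ?_, ?_⟩
      · rw [hW, Finset.mem_filter]
        exact ⟨Finset.mem_univ _, hcon⟩
      · rw [Finset.mem_filter]
        exact ⟨Finset.mem_univ _, ⟨_, hpB.2⟩, hv⟩
    have hd : goodT D C (.d p) := hall _ (Or.inl rfl)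
    obtain ⟨w, hw, hwA, -⟩ := R.out (.d p) hd (by simp)
    have hwq : ∃ a, w = .q p a := by
      cases w with
      | q p' a =>
        have h1 : p' = p := hwA
        exact ⟨a, by rw [h1]⟩
      | d p' => exact absurd hwA (by simp [Arc])
      | e u => exact absurd hwA (by simp [Arc])
      | f u => exact absurd hwA (by simp [Arc])
      | l u k => exact absurd hwA (by simp [Arc])
      | r u k => exact absurd hwA (by simp [Arc])
      | g u k => exact absurd hwA (by simp [Arc])
      | o => exact absurd hwA (by simp [Arc])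
    obtain ⟨a, rfl⟩ := hwq
    have ha := decode_eq hK R p hd (fun a => hall _ (Or.inr (Or.inl ⟨a, rfl⟩)))
      (fun t => zone_of fun v hv => hall v (Or.inr (Or.inr ⟨t, hv⟩))) a hw
    have hxa : (fun t => x (D.var p t)) = a := by
      rw [ha]
      funext t
      rw [hx]
    rw [hxa]
    exact hw
  have hinj : (B \ T).card ≤ F2.card := by
    refine Finset.card_le_card_of_injOn (fun p =>
      if C (.inl (.d p, 2)) = .inl (.q p (fun t => x (D.var p t)), 0) then
        (.inl (.d p, 2) : City P U K Z)
      else .inl (.q p (fun t => x (D.var p t)), 0)) ?_ ?_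
    · intro p hp
      have hp' : p ∈ B \ T := hp
      have h1 := hgood p hp'
      have hbad : bad p fun t => x (D.var p t) := by
        rw [Finset.mem_sdiff, hB, Finset.mem_filter] at hp'
        exact hp'.1.2
      have hDir : Dir D (.inl (.d p, 2) : City P U K Z)
          (.inl (.q p (fun t => x (D.var p t)), 0)) := Or.inr ⟨rfl, rfl, rfl⟩
      have hRead : Read bad (.inl (.d p, 2) : City P U K Z)
          (.inl (.q p (fun t => x (D.var p t)), 0)) := ⟨p, _, hbad, rfl, rfl⟩
      have hnDir : ¬ Dir D (.inl (.q p (fun t => x (D.var p t)), 0) : City P U K Z)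
          (.inl (.d p, 2)) := by
        rintro (⟨h2, -⟩ | ⟨h2, -, -⟩)
        · cases h2
        · exact absurd h2 (by decide)
      show _ ∈ (F2 : Set (City P U K Z))
      rw [Finset.mem_coe, hF2, Finset.mem_filter]
      refine ⟨Finset.mem_univ _, ?_⟩
      simp only
      split_ifs with h2
      · rw [h2]
        refine ⟨Or.inl hDir, ?_⟩
        rintro (h3 | h3)
        · exact h3.2 hRead
        · exact hnDir h3.1
      · rcases h1 with h3 | h3
        · exact absurd h3 h2
        · rw [h3]
          refine ⟨Or.inr hDir, ?_⟩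
          rintro (h4 | h4)
          · exact hnDir h4.1
          · exact h4.2 hRead
    · intro p _ p' _ h
      simp only at h
      split_ifs at h
      · have h1 := Sum.inl.inj h
        exact Node.d.inj (Prod.mk.inj h1).1
      · have h1 := Sum.inl.inj h
        have h2 := (Prod.mk.inj h1).1
        cases h2
      · have h1 := Sum.inl.inj h
        have h2 := (Prod.mk.inj h1).1
        cases h2
      · have h1 := Sum.inl.inj h
        exact (Node.q.inj (Prod.mk.inj h1).1).1
  have hBc : B.card ≤ T.card + (B \ T).card := by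
    have h1 : B ⊆ T ∪ (B \ T) := by
      intro p hp
      rw [Finset.mem_union, Finset.mem_sdiff]
      by_cases h : p ∈ T
      · exact Or.inl h
      · exact Or.inr ⟨hp, h⟩
    exact (Finset.card_le_card h1).trans (Finset.card_union_le _ _)
  rw [← hB]
  have h1 : W.card * (2 * Δ) ≤ 2 * F1.card * (2 * Δ) := Nat.mul_le_mul_right _ hdef
  calc B.card ≤ T.card + (B \ T).card := hBc
    _ ≤ 2 * F1.card * (2 * Δ) + F2.card := by omega
    _ ≤ 4 * Δ * F1.card + 4 * Δ * F2.card := by
        have h2 : 2 * F1.card * (2 * Δ) = 4 * Δ * F1.card := by ring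
        have h3 : F2.card ≤ 4 * Δ * F2.card := by
          calc F2.card = 1 * F2.card := (one_mul _).symm
            _ ≤ 4 * Δ * F2.card := Nat.mul_le_mul_right _ (by omega)
        omega
    _ = 4 * Δ * (F1.card + F2.card) := by ring
    _ ≤ 4 * Δ * cost D bad C := Nat.mul_le_mul_left _ hcost

end SALES
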