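import Pool.Agent.SALES.Defs

/-!
# SALES, row A: decoding the rows
-/

set_option autoImplicit false

namespace SALES

/-- abstract properties of the successor relation of a tour -/
structure Rel {P U K : ℕ} (D : Data P U K) (s : Node P U K → Node P U K → Prop)
    (G : Node P U K → Prop) : Prop where
  out : ∀ v, G v → v ≠ .o → ∃ w, s v w ∧ Arc D v w ∧ ∀ w', s v w' → w' = w
  inn : ∀ w, G w → (∀ p : Fin P, p.val = 0 → w ≠ .d p) →
    ∃ v, s v w ∧ Arc D v w ∧ ∀ v', s v' w → v' = v
  two : ∀ v w, G v → G w → s v w → ¬ s w v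

/-- the node after row `u` -/
def nxt {P U K : ℕ} (u : Fin U) : Node P U K :=
  if h : u.val + 1 < U then .e ⟨u.val + 1, h⟩ else .o

/-- the whole row `u` is good -/
def Zone {P U K : ℕ} (G : Node P U K → Prop) (u : Fin U) : Prop :=
  G (.e u) ∧ G (.f u) ∧ (∀ k, G (.l u k) ∧ G (.r u k) ∧ G (.g u k)) ∧ G (nxt u)

namespace h8

variable {P U K : ℕ} {D : Data P U K} {s : Node P U K → Node P U K → Prop}
  {G : Node P U K → Prop}

/-- the separator before slot `k` -/
def sep (u : Fin U) (k : Fin K) : Node P U K :=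
  if h : k.val = 0 then .f u else .g u ⟨k.val - 1, by omega⟩

theorem sep_zero (u : Fin U) (k : Fin K) (h : k.val = 0) : (sep u k : Node P U K) = .f u := by
  simp [sep, h]

theorem sep_succ (u : Fin U) (k : Fin K) (h : k.val + 1 < K) :
    (sep u ⟨k.val + 1, h⟩ : Node P U K) = .g u k := by
  simp [sep]

theorem sep_cases (u : Fin U) (k : Fin K) :
    (k.val = 0 ∧ (sep u k : Node P U K) = .f u) ∨
      ∃ j : Fin K, k.val = j.val + 1 ∧ (sep u k : Node P U K) = .g u j := by
  by_cases h : k.val = 0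
  · exact Or.inl ⟨h, sep_zero u k h⟩
  · refine Or.inr ⟨⟨k.val - 1, by omega⟩, by simp; omega, ?_⟩
    simp [sep, h]

/-! ### inversion of the arcs -/

theorem arc_l_inv {u : Fin U} {k : Fin K} {v : Node P U K} (h : Arc D v (.l u k)) :
    v = sep u k ∨ v = .r u k ∨
      ∃ p a t, v = .q p a ∧ a t = true ∧ D.var p t = u ∧ D.slot p t a = k := by
  cases v with
  | d p => exact h.elim
  | q p a =>
    obtain ⟨t, h1, h2, h3⟩ := h
    exact Or.inr (Or.inr ⟨p, a, t, rfl, h1, h2, h3⟩)
  | e u' => exact h.elim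
  | f u' =>
    obtain ⟨h1, h2⟩ := h
    subst h1
    exact Or.inl (sep_zero u k h2).symm
  | l u' k' => exact h.elim
  | r u' k' =>
    obtain ⟨h1, h2⟩ := h
    subst h1 h2
    exact Or.inr (Or.inl rfl)
  | g u' k' =>
    obtain ⟨h1, h2⟩ := h
    subst h1
    left
    rcases sep_cases (P := P) u k with ⟨h3, _⟩ | ⟨j, h3, h4⟩
    · omega
    · rw [h4]
      congr 1
      exact Fin.ext (by omega)
  | o => exact h.elim

theorem arc_l_out {u : Fin U} {k : Fin K} {w : Node P U K} (h : Arc D (.l u k) w) :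
    w = sep u k ∨ w = .r u k ∨
      ∃ p a t, w = .q p a ∧ a t = false ∧ D.var p t = u ∧ D.slot p t a = k := by
  cases w with
  | d p => exact h.elim
  | q p a =>
    obtain ⟨t, h1, h2, h3⟩ := h
    exact Or.inr (Or.inr ⟨p, a, t, rfl, h1, h2, h3⟩)
  | e u' => exact h.elim
  | f u' =>
    obtain ⟨h1, h2⟩ := h
    subst h1
    exact Or.inl (sep_zero u k h2).symm
  | l u' k' => exact h.elim
  | r u' k' =>
    obtain ⟨h1, h2⟩ := h
    subst h1 h2
    exact Or.inr (Or.inl rfl)
  | g u' k' =>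
    obtain ⟨h1, h2⟩ := h
    subst h1
    left
    rcases sep_cases (P := P) u k with ⟨h3, _⟩ | ⟨j, h3, h4⟩
    · omega
    · rw [h4]
      congr 1
      exact Fin.ext (by omega)
  | o => exact h.elim

theorem arc_r_inv {u : Fin U} {k : Fin K} {v : Node P U K} (h : Arc D v (.r u k)) :
    v = .g u k ∨ v = .l u k ∨
      ∃ p a t, v = .q p a ∧ a t = false ∧ D.var p t = u ∧ D.slot p t a = k := by
  cases v with
  | d p => exact h.elim
  | q p a =>
    obtain ⟨t, h1, h2, h3⟩ := h
    exact Or.inr (Or.inr ⟨p, a, t, rfl, h1, h2, h3⟩)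
  | e u' => exact h.elim
  | f u' => exact h.elim
  | l u' k' =>
    obtain ⟨h1, h2⟩ := h
    subst h1 h2
    exact Or.inr (Or.inl rfl)
  | r u' k' => exact h.elim
  | g u' k' =>
    obtain ⟨h1, h2⟩ := h
    subst h1 h2
    exact Or.inl rfl
  | o => exact h.elim

theorem arc_r_out {u : Fin U} {k : Fin K} {w : Node P U K} (h : Arc D (.r u k) w) :
    w = .g u k ∨ w = .l u k ∨
      ∃ p a t, w = .q p a ∧ a t = true ∧ D.var p t = u ∧ D.slot p t a = k := by
  cases w with
  | d p => exact h.elim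
  | q p a =>
    obtain ⟨t, h1, h2, h3⟩ := h
    exact Or.inr (Or.inr ⟨p, a, t, rfl, h1, h2, h3⟩)
  | e u' => exact h.elim
  | f u' => exact h.elim
  | l u' k' =>
    obtain ⟨h1, h2⟩ := h
    subst h1 h2
    exact Or.inr (Or.inl rfl)
  | r u' k' => exact h.elim
  | g u' k' =>
    obtain ⟨h1, h2⟩ := h
    subst h1 h2
    exact Or.inl rfl
  | o => exact h.elim

theorem arc_f_inv (hK : 0 < K) {u : Fin U} {v : Node P U K} (h : Arc D v (.f u)) :
    v = .e u ∨ v = .l u ⟨0, hK⟩ := by
  cases v with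
  | d p => exact h.elim
  | q p a => exact h.elim
  | e u' =>
    have h : u = u' := h
    subst h
    exact Or.inl rfl
  | f u' => exact h.elim
  | l u' k' =>
    obtain ⟨h1, h2⟩ := h
    subst h1
    right
    congr 1
    exact Fin.ext h2
  | r u' k' => exact h.elim
  | g u' k' => exact h.elim
  | o => exact h.elim

theorem arc_f_out (hK : 0 < K) {u : Fin U} {w : Node P U K} (h : Arc D (.f u) w) :
    w = nxt u ∨ w = .l u ⟨0, hK⟩ := by
  cases w with
  | d p => exact h.elim
  | q p a => exact h.elim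
  | e u' =>
    have h : u'.val = u.val + 1 := h
    left
    have h1 : u.val + 1 < U := by have := u'.2; omega
    rw [nxt, dif_pos h1]
    congr 1
    exact Fin.ext h
  | f u' => exact h.elim
  | l u' k' =>
    obtain ⟨h1, h2⟩ := h
    subst h1
    right
    congr 1
    exact Fin.ext h2
  | r u' k' => exact h.elim
  | g u' k' => exact h.elim
  | o =>
    have h : u.val + 1 = U := h
    left
    rw [nxt, dif_neg (by omega)]

theorem arc_g_inv {u : Fin U} {k : Fin K} {v : Node P U K} (h : Arc D v (.g u k)) :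
    v = .r u k ∨ (v = .e u ∧ k.val + 1 = K) ∨ ∃ j : Fin K, j.val = k.val + 1 ∧ v = .l u j := by
  cases v with
  | d p => exact h.elim
  | q p a => exact h.elim
  | e u' =>
    obtain ⟨h1, h2⟩ := h
    subst h1
    exact Or.inr (Or.inl ⟨rfl, h2⟩)
  | f u' => exact h.elim
  | l u' k' =>
    obtain ⟨h1, h2⟩ := h
    subst h1
    exact Or.inr (Or.inr ⟨k', h2, rfl⟩)
  | r u' k' =>
    obtain ⟨h1, h2⟩ := h
    subst h1 h2
    exact Or.inl rfl
  | g u' k' => exact h.elim
  | o => exact h.elim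

theorem arc_g_out {u : Fin U} {k : Fin K} {w : Node P U K} (h : Arc D (.g u k) w) :
    w = .r u k ∨ (w = nxt u ∧ k.val + 1 = K) ∨ ∃ j : Fin K, j.val = k.val + 1 ∧ w = .l u j := by
  cases w with
  | d p => exact h.elim
  | q p a => exact h.elim
  | e u' =>
    obtain ⟨h1, h2⟩ := h
    refine Or.inr (Or.inl ⟨?_, h1⟩)
    have h3 : u.val + 1 < U := by have := u'.2; omega
    rw [nxt, dif_pos h3]
    congr 1
    exact Fin.ext h2
  | f u' => exact h.elim
  | l u' k' =>
    obtain ⟨h1, h2⟩ := h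
    subst h1
    exact Or.inr (Or.inr ⟨k', h2, rfl⟩)
  | r u' k' =>
    obtain ⟨h1, h2⟩ := h
    subst h1 h2
    exact Or.inl rfl
  | g u' k' => exact h.elim
  | o =>
    obtain ⟨h1, h2⟩ := h
    refine Or.inr (Or.inl ⟨?_, h1⟩)
    rw [nxt, dif_neg (by omega)]

theorem arc_q_inv {p : Fin P} {a : Loc} {v : Node P U K} (h : Arc D v (.q p a)) :
    v = .d p ∨ (∃ t, a t = false ∧ v = .l (D.var p t) (D.slot p t a)) ∨
      ∃ t, a t = true ∧ v = .r (D.var p t) (D.slot p t a) := by
  cases v with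
  | d p' =>
    have h : p = p' := h
    subst h
    exact Or.inl rfl
  | q p a => exact h.elim
  | e u' => exact h.elim
  | f u' => exact h.elim
  | l u' k' =>
    obtain ⟨t, h1, h2, h3⟩ := h
    subst h2 h3
    exact Or.inr (Or.inl ⟨t, h1, rfl⟩)
  | r u' k' =>
    obtain ⟨t, h1, h2, h3⟩ := h
    subst h2 h3
    exact Or.inr (Or.inr ⟨t, h1, rfl⟩)
  | g u' k' => exact h.elim
  | o => exact h.elim

/-- a slot has one type only -/
theorem type_excl {u : Fin U} {k : Fin K} {p p' : Fin P} {a a' : Loc} {t t' : Fin 3}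
    (h1 : a t = true) (h2 : D.var p t = u) (h3 : D.slot p t a = k) (h1' : a' t' = false)
    (h2' : D.var p' t' = u) (h3' : D.slot p' t' a' = k) : False := by
  obtain ⟨_, h5, h6⟩ := D.inj p t a p' t' a' (h2.trans h2'.symm) (h3.trans h3'.symm)
  subst h5 h6
  rw [h1] at h1'
  exact absurd h1' (by decide)

/-! ### slots -/

section
variable (R : Rel D s G) {u : Fin U}
include R

theorem out_uniq {v w w' : Node P U K} (hv : G v) (ho : v ≠ .o) (h : s v w) (h' : s v w') :
    w = w' := by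
  obtain ⟨x, _, _, hx⟩ := R.out v hv ho
  rw [hx w h, hx w' h']

theorem inn_uniq {v v' w : Node P U K} (hw : G w) (hd : ∀ p : Fin P, p.val = 0 → w ≠ .d p)
    (h : s v w) (h' : s v' w) : v = v' := by
  obtain ⟨x, _, _, hx⟩ := R.inn w hw hd
  rw [hx v h, hx v' h']

theorem good_sep (hZ : Zone G u) (k : Fin K) : G (sep u k) := by
  rcases sep_cases (P := P) u k with ⟨_, h⟩ | ⟨j, _, h⟩
  · rw [h]
    exact hZ.2.1
  · rw [h]
    exact (hZ.2.2.1 j).2.2

theorem claimA (hZ : Zone G u) (k : Fin K) (h1 : s (sep u k) (.l u k))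
    (h2 : s (.g u k) (.r u k)) : False := by
  obtain ⟨hl, hr, hg⟩ := hZ.2.2.1 k
  have hsep : ∀ x : Node P U K, x = sep u k → (x = .f u ∨ ∃ j, x = .g u j) := by
    intro x hx
    rcases sep_cases (P := P) u k with ⟨_, h⟩ | ⟨j, _, h⟩
    · exact Or.inl (hx.trans h)
    · exact Or.inr ⟨j, hx.trans h⟩
  obtain ⟨w, hw, hwA, _⟩ := R.out (.l u k) hl (by simp)
  obtain ⟨w', hw', hwA', _⟩ := R.out (.r u k) hr (by simp)
  have ht : ∃ p a t, w = .q p a ∧ a t = false ∧ D.var p t = u ∧ D.slot p t a = k := by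
    rcases arc_l_out hwA with h | h | h
    · exact (R.two _ _ (good_sep R hZ k) hl h1 (h ▸ hw)).elim
    · have := inn_uniq R hr (by simp) h2 (h ▸ hw)
      exact absurd this (by simp)
    · exact h
  have ht' : ∃ p a t, w' = .q p a ∧ a t = true ∧ D.var p t = u ∧ D.slot p t a = k := by
    rcases arc_r_out hwA' with h | h | h
    · exact (R.two _ _ hg hr h2 (h ▸ hw')).elim
    · have h3 := inn_uniq R hl (by simp) (h ▸ hw') h1
      rcases hsep _ h3 with h4 | ⟨j, h4⟩
      · exact absurd h4 (by simp)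
      · exact absurd h4 (by simp)
    · exact h
  obtain ⟨p, a, t, _, h3, h4, h5⟩ := ht
  obtain ⟨p', a', t', _, h3', h4', h5'⟩ := ht'
  exact type_excl h3' h4' h5' h3 h4 h5

theorem claimB (hZ : Zone G u) (k : Fin K) (h1 : s (.l u k) (sep u k))
    (h2 : s (.r u k) (.g u k)) : False := by
  obtain ⟨hl, hr, hg⟩ := hZ.2.2.1 k
  have hsep : ∀ x : Node P U K, x = sep u k → (x = .f u ∨ ∃ j, x = .g u j) := by
    intro x hx
    rcases sep_cases (P := P) u k with ⟨_, h⟩ | ⟨j, _, h⟩
    · exact Or.inl (hx.trans h)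
    · exact Or.inr ⟨j, hx.trans h⟩
  obtain ⟨w, hw, hwA, _⟩ := R.inn (.l u k) hl (by simp)
  obtain ⟨w', hw', hwA', _⟩ := R.inn (.r u k) hr (by simp)
  have ht : ∃ p a t, w = .q p a ∧ a t = true ∧ D.var p t = u ∧ D.slot p t a = k := by
    rcases arc_l_inv hwA with h | h | h
    · exact (R.two _ _ hl (good_sep R hZ k) h1 (h ▸ hw)).elim
    · have := out_uniq R hr (by simp) h2 (h ▸ hw)
      exact absurd this (by simp)
    · exact h
  have ht' : ∃ p a t, w' = .q p a ∧ a t = false ∧ D.var p t = u ∧ D.slot p t a = k := by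
    rcases arc_r_inv hwA' with h | h | h
    · exact (R.two _ _ hr hg h2 (h ▸ hw')).elim
    · have h3 := out_uniq R hl (by simp) (h ▸ hw') h1
      rcases hsep _ h3 with h4 | ⟨j, h4⟩
      · exact absurd h4 (by simp)
      · exact absurd h4 (by simp)
    · exact h
  obtain ⟨p, a, t, _, h3, h4, h5⟩ := ht
  obtain ⟨p', a', t', _, h3', h4', h5'⟩ := ht'
  exact type_excl h3 h4 h5 h3' h4' h5'

/-- a middle separator is passed from left to right or from right to left -/
theorem middle (hZ : Zone G u) (k j : Fin K) (hj : j.val = k.val + 1) :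
    (s (.r u k) (.g u k) ∧ s (.g u k) (.l u j)) ∨ (s (.l u j) (.g u k) ∧ s (.g u k) (.r u k)) := by
  obtain ⟨hl, hr, hg⟩ := hZ.2.2.1 k
  obtain ⟨hl', hr', hg'⟩ := hZ.2.2.1 j
  obtain ⟨v, hv, hvA, _⟩ := R.inn (.g u k) hg (by simp)
  obtain ⟨w, hw, hwA, _⟩ := R.out (.g u k) hg (by simp)
  have hjK := j.2
  have h1 : v = .r u k ∨ v = .l u j := by
    rcases arc_g_inv hvA with h | ⟨_, h⟩ | ⟨i, h, h'⟩
    · exact Or.inl h
    · omega
    · right
      rw [h']
      congr 1
      exact Fin.ext (by omega)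
  have h2 : w = .r u k ∨ w = .l u j := by
    rcases arc_g_out hwA with h | ⟨_, h⟩ | ⟨i, h, h'⟩
    · exact Or.inl h
    · omega
    · right
      rw [h']
      congr 1
      exact Fin.ext (by omega)
  rcases h1 with h1 | h1 <;> rcases h2 with h2 | h2
  · rw [h1] at hv
    rw [h2] at hw
    exact (R.two _ _ hr hg hv hw).elim
  · rw [h1] at hv
    rw [h2] at hw
    exact Or.inl ⟨hv, hw⟩
  · rw [h1] at hv
    rw [h2] at hw
    exact Or.inr ⟨hv, hw⟩
  · rw [h1] at hv
    rw [h2] at hw
    exact (R.two _ _ hl' hg hv hw).elim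

theorem right_all (hK : 0 < K) (hZ : Zone G u) (h0 : s (.f u) (.l u ⟨0, hK⟩)) :
    ∀ (k : ℕ) (hk : k < K), s (sep u ⟨k, hk⟩) (.l u ⟨k, hk⟩) := by
  intro k
  induction k with
  | zero =>
    intro hk
    rw [sep_zero _ _ rfl]
    exact h0
  | succ k ih =>
    intro hk
    have h1 := ih (by omega)
    rw [sep_succ u ⟨k, by omega⟩ hk]
    rcases middle R hZ ⟨k, by omega⟩ ⟨k + 1, hk⟩ rfl with h | h
    · exact h.2
    · exact (claimA R hZ _ h1 h.2).elim

theorem left_all (hK : 0 < K) (hZ : Zone G u) (h0 : s (.l u ⟨0, hK⟩) (.f u)) :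
    ∀ (k : ℕ) (hk : k < K), s (.l u ⟨k, hk⟩) (sep u ⟨k, hk⟩) := by
  intro k
  induction k with
  | zero =>
    intro hk
    rw [sep_zero _ _ rfl]
    exact h0
  | succ k ih =>
    intro hk
    have h1 := ih (by omega)
    rw [sep_succ u ⟨k, by omega⟩ hk]
    rcases middle R hZ ⟨k, by omega⟩ ⟨k + 1, hk⟩ rfl with h | h
    · exact (claimB R hZ _ h1 h.1).elim
    · exact h.1

end

theorem nxt_ne_d (u : Fin U) (p : Fin P) : (nxt u : Node P U K) ≠ .d p := by
  unfold nxt
  split_ifs <;> simp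

end h8

open h8

/-- the row is traversed either from left to right or from right to left -/
theorem decode_row {P U K : ℕ} (hK : 0 < K) {D : Data P U K}
    {s : Node P U K → Node P U K → Prop} {G : Node P U K → Prop} (R : Rel D s G) (u : Fin U)
    (hZ : Zone G u) :
    (s (.e u) (.f u) ∧ ∀ k, s (.r u k) (.g u k) ∧ ∀ p a, ¬ s (.r u k) (.q p a)) ∨
      (¬ s (.e u) (.f u) ∧ ∀ k p a, ¬ s (.l u k) (.q p a)) := by
  obtain ⟨he, hf, hrow, hn⟩ := hZ
  have hZ : Zone G u := ⟨he, hf, hrow, hn⟩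
  obtain ⟨v, hv, hvA, hv1⟩ := R.inn (.f u) hf (by simp)
  obtain ⟨w, hw, hwA, hw1⟩ := R.out (.f u) hf (by simp)
  have hLK : K - 1 < K := by omega
  obtain ⟨hlL, hrL, hgL⟩ := hrow ⟨K - 1, hLK⟩
  obtain ⟨x, hx, hxA, hx1⟩ := R.inn (.g u ⟨K - 1, hLK⟩) hgL (by simp)
  obtain ⟨y, hy, hyA, hy1⟩ := R.out (.g u ⟨K - 1, hLK⟩) hgL (by simp)
  have hx2 : x = .r u ⟨K - 1, hLK⟩ ∨ x = .e u := by
    rcases arc_g_inv hxA with h | ⟨h, _⟩ | ⟨j, h, _⟩
    · exact Or.inl h
    · exact Or.inr h
    · have := j.2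
      simp only at h
      omega
  have hy2 : y = .r u ⟨K - 1, hLK⟩ ∨ y = nxt u := by
    rcases arc_g_out hyA with h | ⟨h, _⟩ | ⟨j, h, _⟩
    · exact Or.inl h
    · exact Or.inr h
    · have := j.2
      simp only at h
      omega
  rcases arc_f_inv hK hvA with h1 | h1 <;> rcases arc_f_out hK hwA with h2 | h2
  · -- both ends passed directly
    exfalso
    rw [h1] at hv
    rw [h2] at hw
    rcases hx2 with h3 | h3
    · rcases hy2 with h4 | h4
      · rw [h3] at hx
        rw [h4] at hy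
        exact R.two _ _ hrL hgL hx hy
      · rw [h4] at hy
        have := inn_uniq R hn (fun p _ => nxt_ne_d u p) hw hy
        exact absurd this (by simp)
    · rw [h3] at hx
      have := out_uniq R he (by simp) hv hx
      exact absurd this (by simp)
  · -- from left to right
    rw [h1] at hv
    rw [h2] at hw
    have hR := right_all R hK hZ hw
    refine Or.inl ⟨hv, fun k => ?_⟩
    have h5 : s (.r u k) (.g u k) := by
      by_cases hk : k.val + 1 < K
      · rcases middle R hZ k ⟨k.val + 1, hk⟩ rfl with h | h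
        · exact h.1
        · exact (claimA R hZ k (hR k.val k.2) h.2).elim
      · have hkL : k = ⟨K - 1, hLK⟩ := Fin.ext (by simp only; omega)
        rw [hkL]
        rcases hx2 with h3 | h3
        · rw [h3] at hx
          exact hx
        · rw [h3] at hx
          have := out_uniq R he (by simp) hv hx
          exact absurd this (by simp)
    refine ⟨h5, fun p a h6 => ?_⟩
    have := out_uniq R (hrow k).2.1 (by simp) h5 h6
    exact absurd this (by simp)
  · -- from right to left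
    rw [h1] at hv
    have hL := left_all R hK hZ hv
    refine Or.inr ⟨fun h3 => ?_, fun k p a h6 => ?_⟩
    · have := inn_uniq R hf (by simp) h3 hv
      exact absurd this (by simp)
    · have h7 := out_uniq R (hrow k).1 (by simp) h6 (hL k.val k.2)
      rcases sep_cases (P := P) u k with ⟨_, h⟩ | ⟨j, _, h⟩
      · rw [Fin.eta, h] at h7
        exact absurd h7 (by simp)
      · rw [Fin.eta, h] at h7
        exact absurd h7 (by simp)
  · exfalso
    rw [h1] at hv
    rw [h2] at hw
    exact R.two _ _ (hrow _).1 hf hv hw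

open Classical in
theorem decode_eq {P U K : ℕ} (hK : 0 < K) {D : Data P U K}
    {s : Node P U K → Node P U K → Prop} {G : Node P U K → Prop} (R : Rel D s G) (p : Fin P)
    (hd : G (.d p)) (hq : ∀ a, G (.q p a)) (hz : ∀ t, Zone G (D.var p t)) (a : Loc)
    (hs : s (.d p) (.q p a)) :
    a = fun t => decide (s (.e (D.var p t)) (.f (D.var p t))) := by
  set b : Loc := fun t => decide (s (.e (D.var p t)) (.f (D.var p t))) with hb
  obtain ⟨v, hv, hvA, _⟩ := R.inn (.q p b) (hq b) (by simp)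
  rcases arc_q_inv hvA with h | ⟨t, ht, h⟩ | ⟨t, ht, h⟩
  · rw [h] at hv
    have h1 := out_uniq R hd (by simp) hs hv
    exact (Node.q.inj h1).2
  · rw [h] at hv
    exfalso
    have h2 : ¬ s (.e (D.var p t)) (.f (D.var p t)) := by
      simpa [hb] using ht
    rcases decode_row hK R (D.var p t) (hz t) with h3 | h3
    · exact h2 h3.1
    · exact h3.2 _ _ _ hv
  · rw [h] at hv
    exfalso
    have h2 : s (.e (D.var p t)) (.f (D.var p t)) := by
      simpa [hb] using ht
    rcases decode_row hK R (D.var p t) (hz t) with h3 | h3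
    · exact (h3.2 _).2 _ _ hv
    · exact h3.1 h2

end SALES
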