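import Mathlib

/-!
# SALES: the travelling salesman gadget, definitions

A directed graph on `Node P U K`: for every potential equation `p` a node `d p` followed by one of
the eight nodes `q p a` (`a` = values of the three variables of `p`), and for every variable `u` a
row `f u, l u 0, r u 0, g u 0, l u 1, ..., g u (K-1)` which is traversed from left to right (value
`true`) or from right to left (value `false`), between `e u` and the next node. The node `q p a` can
also be visited on a detour `l, q, r` (if `a t = false`) or `r, q, l` (if `a t = true`) from the slot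
`D.slot p t a` of the row of the variable `D.var p t`.

The cities are three copies (in, middle, out) of every node and `Z` further cities.
-/

set_option autoImplicit false

namespace SALES

/-- values of the three variables of an equation -/
abbrev Loc : Type := Fin 3 → Bool

/-- the nodes -/
inductive Node (P U K : ℕ) : Type
  | d (p : Fin P)
  | q (p : Fin P) (a : Loc)
  | e (u : Fin U)
  | f (u : Fin U)
  | l (u : Fin U) (k : Fin K)
  | r (u : Fin U) (k : Fin K)
  | g (u : Fin U) (k : Fin K)
  | o
  deriving DecidableEq, Fintype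

/-- the variables of the equations and the slots -/
structure Data (P U K : ℕ) where
  var : Fin P → Fin 3 → Fin U
  slot : Fin P → Fin 3 → Loc → Fin K
  inj : ∀ p t a p' t' a', var p t = var p' t' → slot p t a = slot p' t' a' →
    p = p' ∧ t = t' ∧ a = a'

/-- the arcs of the directed graph -/
def Arc {P U K : ℕ} (D : Data P U K) : Node P U K → Node P U K → Prop
  | .d p, .q p' _ => p' = p
  | .q p _, .d p' => p'.val = p.val + 1
  | .q p _, .e u => p.val + 1 = P ∧ u.val = 0
  | .q p a, .r u k => ∃ t, a t = false ∧ D.var p t = u ∧ D.slot p t a = k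
  | .q p a, .l u k => ∃ t, a t = true ∧ D.var p t = u ∧ D.slot p t a = k
  | .l u k, .q p a => ∃ t, a t = false ∧ D.var p t = u ∧ D.slot p t a = k
  | .r u k, .q p a => ∃ t, a t = true ∧ D.var p t = u ∧ D.slot p t a = k
  | .e u, .f u' => u' = u
  | .e u, .g u' k => u' = u ∧ k.val + 1 = K
  | .f u, .e u' => u'.val = u.val + 1
  | .f u, .o => u.val + 1 = U
  | .g u k, .e u' => k.val + 1 = K ∧ u'.val = u.val + 1
  | .g u k, .o => k.val + 1 = K ∧ u.val + 1 = U
  | .f u, .l u' k => u' = u ∧ k.val = 0
  | .l u' k, .f u => u' = u ∧ k.val = 0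
  | .g u k, .l u' k' => u' = u ∧ k'.val = k.val + 1
  | .l u' k', .g u k => u' = u ∧ k'.val = k.val + 1
  | .l u k, .r u' k' => u' = u ∧ k' = k
  | .r u k, .l u' k' => u' = u ∧ k' = k
  | .r u k, .g u' k' => u' = u ∧ k' = k
  | .g u k, .r u' k' => u' = u ∧ k' = k
  | _, _ => False

/-- the cities -/
abbrev City (P U K Z : ℕ) : Type := (Node P U K × Fin 3) ⊕ Fin Z

/-- the directed edges between the cities -/
def Dir {P U K Z : ℕ} (D : Data P U K) : City P U K Z → City P U K Z → Prop
  | .inl (v, i), .inl (w, j) => (v = w ∧ j.val = i.val + 1) ∨ (i = 2 ∧ j = 0 ∧ Arc D v w)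
  | .inl (v, i), .inr z => v = .o ∧ i = 2 ∧ z.val = 0
  | .inr z, .inr z' => z'.val = z.val + 1
  | .inr z, .inl (w, j) => z.val + 1 = Z ∧ j = 0 ∧ ∃ p : Fin P, p.val = 0 ∧ w = .d p

/-- the edge which tells that the equation `p` is read with the values `a`, for bad `(p, a)` -/
def Read {P U K Z : ℕ} (bad : Fin P → Loc → Prop) (x y : City P U K Z) : Prop :=
  ∃ p a, bad p a ∧ x = .inl (.d p, 2) ∧ y = .inl (.q p a, 0)

/-- `x` and `y` have distance `1`: joined by a directed edge, not one of the reading edges of a bad
pair -/
def Near {P U K Z : ℕ} (D : Data P U K) (bad : Fin P → Loc → Prop) (x y : City P U K Z) : Prop :=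
  (Dir D x y ∧ ¬ Read bad x y) ∨ (Dir D y x ∧ ¬ Read bad y x)

open Classical in
/-- the number of edges of length `2` of the tour `C` -/
noncomputable def cost {P U K Z : ℕ} (D : Data P U K) (bad : Fin P → Loc → Prop)
    (C : Equiv.Perm (City P U K Z)) : ℕ :=
  (Finset.univ.filter fun x => ¬ Near D bad x (C x)).card

end SALES
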