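import Pool.Agent.LIFT.Defs
import Pool.Agent.Helper8.LIFT.RandXor

/-!
# SALES, row F: random XOR instances of bounded degree
-/

set_option autoImplicit false

open scoped BigOperators

namespace SALES

namespace h8f

open Finset SDX SDX.h8

/-- the permutations mapping `J` into `V` -/
def into {q : ℕ} (J V : Finset (Fin q)) : Finset (Equiv.Perm (Fin q)) :=
  univ.filter fun s => ∀ j ∈ J, s j ∈ V

theorem mem_into {q : ℕ} {J V : Finset (Fin q)} {s : Equiv.Perm (Fin q)} :
    s ∈ into J V ↔ ∀ j ∈ J, s j ∈ V := by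
  simp [into]

theorem into_swap {q : ℕ} (J V : Finset (Fin q)) {j k : Fin q} (hj : j ∉ J) (hk : k ∉ J) :
    (into (insert k J) V).card = (into (insert j J) V).card := by
  refine card_bij (fun s _ => s * Equiv.swap j k) ?_ ?_ ?_
  · intro s hs
    rw [mem_into] at hs ⊢
    intro i hi
    rw [mem_insert] at hi
    rw [Equiv.Perm.mul_apply]
    rcases hi with rfl | hi
    · rw [Equiv.swap_apply_left]
      exact hs _ (mem_insert_self _ _)
    · have h1 : i ≠ j := fun h => hj (by rwa [h] at hi)
      have h2 : i ≠ k := fun h => hk (by rwa [h] at hi)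
      rw [Equiv.swap_apply_of_ne_of_ne h1 h2]
      exact hs _ (mem_insert_of_mem hi)
  · intro s _ s' _ h
    exact mul_right_cancel h
  · intro s hs
    refine ⟨s * Equiv.swap j k, ?_, by rw [mul_assoc, Equiv.swap_mul_self, mul_one]⟩
    rw [mem_into] at hs ⊢
    intro i hi
    rw [mem_insert] at hi
    rw [Equiv.Perm.mul_apply]
    rcases hi with rfl | hi
    · rw [Equiv.swap_apply_right]
      exact hs _ (mem_insert_self _ _)
    · have h1 : i ≠ j := fun h => hj (by rwa [h] at hi)
      have h2 : i ≠ k := fun h => hk (by rwa [h] at hi)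
      rw [Equiv.swap_apply_of_ne_of_ne h1 h2]
      exact hs _ (mem_insert_of_mem hi)

theorem into_sum {q : ℕ} (J V : Finset (Fin q)) :
    (∑ k ∈ Jᶜ, (into (insert k J) V).card) = ∑ _s ∈ into J V, (V.card - J.card) := by
  have h1 : ∀ k ∈ Jᶜ, (into (insert k J) V).card = ∑ s ∈ into J V, if s k ∈ V then 1 else 0 := by
    intro k _
    rw [← card_filter]
    congr 1
    ext s
    simp only [mem_filter, mem_into, mem_insert, forall_eq_or_imp]
    tauto
  rw [sum_congr rfl h1, sum_comm]
  refine sum_congr rfl fun s hs => ?_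
  rw [mem_into] at hs
  rw [← card_filter]
  have h2 : (Jᶜ.filter fun k => s k ∈ V) = (V.map s.symm.toEmbedding) \ J := by
    ext k
    simp only [mem_filter, mem_compl, mem_sdiff, mem_map_equiv, Equiv.symm_symm]
    tauto
  have h3 : J ⊆ V.map s.symm.toEmbedding := fun k hk => by
    rw [mem_map_equiv, Equiv.symm_symm]
    exact hs k hk
  rw [h2, card_sdiff_of_subset h3, card_map]

theorem into_step {q : ℕ} (J V : Finset (Fin q)) {j : Fin q} (hj : j ∉ J) :
    q * (into (insert j J) V).card ≤ V.card * (into J V).card := by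
  have h1 := into_sum J V
  rw [sum_congr rfl fun k hk => into_swap J V hj (mem_compl.1 hk), sum_const, sum_const,
    card_compl, Fintype.card_fin, smul_eq_mul, smul_eq_mul] at h1
  have h2 : J.card < q := by
    have := card_lt_card (ssubset_univ_iff.2 (fun h : J = univ => hj (h ▸ mem_univ j)))
    rwa [card_univ, Fintype.card_fin] at this
  have h3 : V.card ≤ q := by
    have := card_le_univ V
    rwa [Fintype.card_fin] at this
  obtain ⟨a, ha⟩ := Nat.exists_eq_add_of_lt h2
  have h4 : q - J.card = a + 1 := by omega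
  rw [h4] at h1
  refine Nat.le_of_mul_le_mul_left ?_ (Nat.succ_pos a)
  calc (a + 1) * (q * (into (insert j J) V).card)
      = ((into J V).card * (V.card - J.card)) * q := by rw [← h1]; ring
    _ = (into J V).card * ((V.card - J.card) * q) := by ring
    _ ≤ (into J V).card * (V.card * (a + 1)) := by
        refine Nat.mul_le_mul_left _ ?_
        rw [← h4, Nat.sub_mul, Nat.mul_sub]
        have : V.card * J.card ≤ J.card * q := by
          rw [mul_comm]
          exact Nat.mul_le_mul_left _ h3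
        omega
    _ = (a + 1) * (V.card * (into J V).card) := by ring

theorem into_le {q : ℕ} (J V : Finset (Fin q)) :
    q ^ J.card * (into J V).card ≤ V.card ^ J.card * q.factorial := by
  induction J using Finset.induction_on with
  | empty =>
    simp only [card_empty, pow_zero, one_mul]
    refine (card_le_univ _).trans ?_
    rw [Fintype.card_perm, Fintype.card_fin]
  | insert j J hj ih =>
    rw [card_insert_of_notMem hj, pow_succ, pow_succ]
    calc q ^ J.card * q * (into (insert j J) V).card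
        = q ^ J.card * (q * (into (insert j J) V).card) := by ring
      _ ≤ q ^ J.card * (V.card * (into J V).card) := Nat.mul_le_mul_left _ (into_step J V hj)
      _ = V.card * (q ^ J.card * (into J V).card) := by ring
      _ ≤ V.card * (V.card ^ J.card * q.factorial) := Nat.mul_le_mul_left _ ih
      _ = _ := by ring

theorem into_le' {q : ℕ} (hq : 0 < q) (J V : Finset (Fin q)) :
    ((into J V).card : ℝ) ≤ q.factorial * ((V.card : ℝ) / q) ^ J.card := by
  have hq' : (0 : ℝ) < q := by exact_mod_cast hq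
  have h : ((q : ℝ) ^ J.card * (into J V).card) ≤ (V.card : ℝ) ^ J.card * q.factorial := by
    exact_mod_cast into_le J V
  rw [div_pow, mul_div_assoc', le_div_iff₀ (by positivity)]
  linarith

/-- the equations of a family of permutations -/
def eqs {D q : ℕ} (π : Fin D → Fin 3 → Equiv.Perm (Fin q)) (e : Fin (D * q)) (t : Fin 3) : Fin q :=
  π (finProdFinEquiv.symm e).1 t (finProdFinEquiv.symm e).2

/-- the part `i` of a set of equations -/
def part {D q : ℕ} (J : Finset (Fin (D * q))) (i : Fin D) : Finset (Fin q) :=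
  univ.filter fun j => finProdFinEquiv (i, j) ∈ J

theorem sum_part {D q : ℕ} (J : Finset (Fin (D * q))) : ∑ i, (part J i).card = J.card := by
  rw [← card_sigma]
  refine card_bij (fun p _ => finProdFinEquiv (p.1, p.2)) ?_ ?_ ?_
  · intro p hp
    simpa [part] using hp
  · rintro ⟨i, j⟩ _ ⟨i', j'⟩ _ h
    have := finProdFinEquiv.injective h
    simp only [Prod.mk.injEq] at this
    obtain ⟨rfl, rfl⟩ := this
    rfl
  · intro e he
    refine ⟨⟨(finProdFinEquiv.symm e).1, (finProdFinEquiv.symm e).2⟩, ?_, ?_⟩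
    · simp only [part, mem_sigma, mem_univ, mem_filter, true_and, Prod.mk.eta,
        Equiv.apply_symm_apply]
      exact he
    · simp only [Prod.mk.eta, Equiv.apply_symm_apply]

open Classical in
/-- number of families with the sets of `J` inside `U` -/
theorem card_inside {D q : ℕ} (hq : 0 < q) (J : Finset (Fin (D * q)))
    (U : Finset (Fin 3 × Fin q)) :
    (((univ : Finset (Fin D → Fin 3 → Equiv.Perm (Fin q))).filter
      fun π => ∀ e ∈ J, tri (eqs π) e ⊆ U).card : ℝ)
      ≤ ((q.factorial : ℝ) ^ 3) ^ D * (((U.card : ℝ) / (3 * q)) ^ 3) ^ J.card := by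
  set V : Fin 3 → Finset (Fin q) := fun i => univ.filter fun n => (i, n) ∈ U with hV
  have hq' : (0 : ℝ) < q := by exact_mod_cast hq
  have h1 : ((univ : Finset (Fin D → Fin 3 → Equiv.Perm (Fin q))).filter
      fun π => ∀ e ∈ J, tri (eqs π) e ⊆ U)
      ⊆ Fintype.piFinset fun i => Fintype.piFinset fun t => into (part J i) (V t) := by
    intro π hπ
    rw [mem_filter] at hπ
    rw [Fintype.mem_piFinset]
    intro i
    rw [Fintype.mem_piFinset]
    intro t
    rw [mem_into]
    intro j hj
    rw [part, mem_filter] at hj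
    rw [hV, mem_filter]
    refine ⟨mem_univ _, hπ.2 _ hj.2 (mem_tri.2 ?_)⟩
    simp only [eqs, Equiv.symm_apply_apply]
  have h2 : ∏ t, ((V t).card : ℝ) / q ≤ ((U.card : ℝ) / (3 * q)) ^ 3 := by
    have h3 : U.card = (V 0).card + (V 1).card + (V 2).card := by
      have h4 : U.card = ∑ i : Fin 3, (V i).card := by
        rw [← card_sigma]
        refine card_bij (fun p _ => ⟨p.1, p.2⟩) ?_ ?_ ?_
        · intro p hp
          simp [hV, hp]
        · intro p _ q _ h
          simp only [Sigma.mk.injEq, heq_eq_eq] at h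
          exact Prod.ext h.1 h.2
        · rintro ⟨i, n⟩ h
          simp only [hV, mem_sigma, mem_univ, mem_filter, true_and] at h
          exact ⟨(i, n), h, rfl⟩
      rw [h4, Fin.sum_univ_three]
    rw [Fin.prod_univ_three, h3]
    push_cast
    refine (amgm3 _ _ _ (by positivity) (by positivity) (by positivity)).trans (le_of_eq ?_)
    congr 1
    field_simp
  refine (Nat.cast_le.2 (card_le_card h1)).trans ?_
  rw [Fintype.card_piFinset]
  push_cast
  have h3 : ∀ i : Fin D, ((Fintype.piFinset fun t => into (part J i) (V t)).card : ℝ)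
      ≤ (q.factorial : ℝ) ^ 3 * (((U.card : ℝ) / (3 * q)) ^ 3) ^ (part J i).card := by
    intro i
    rw [Fintype.card_piFinset]
    push_cast
    refine (prod_le_prod (fun t _ => Nat.cast_nonneg _) fun t _ => into_le' hq _ _).trans ?_
    rw [prod_mul_distrib, prod_const, card_univ, Fintype.card_fin, prod_pow]
    refine mul_le_mul_of_nonneg_left ?_ (by positivity)
    exact pow_le_pow_left₀ (prod_nonneg fun t _ => by positivity) h2 _
  refine (prod_le_prod (fun j _ => Nat.cast_nonneg _) fun j _ => h3 j).trans (le_of_eq ?_)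
  rw [prod_mul_distrib, prod_const, card_univ, Fintype.card_fin, prod_pow_eq_pow_sum, sum_part]

open Classical in
/-- expanding families exist -/
theorem expand_exists (D q : ℕ) (δ : ℝ) (hD : 0 < D) (hq : 0 < q) (hδ : 0 < δ)
    (hδD : 8 * Real.exp 3 * D * δ ≤ 1) (s : ℕ) (hs : (2 * s : ℝ) ≤ δ ^ 4 * (3 * q)) :
    ∃ π : Fin D → Fin 3 → Equiv.Perm (Fin q), Expand (tri (eqs π)) s := by
  have hq' : (0 : ℝ) < q := by exact_mod_cast hq
  by_contra hcon
  push Not at hcon
  have hbad : ∀ π : Fin D → Fin 3 → Equiv.Perm (Fin q), ∃ J : Finset (Fin (D * q)),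
      0 < J.card ∧ J.card ≤ s ∧
      ∃ U : Finset (Fin 3 × Fin q), U.card = 7 * J.card / 4 ∧ ∀ j ∈ J, tri (eqs π) j ⊆ U := by
    intro π
    have h1 := hcon π
    unfold Expand at h1
    push Not at h1
    obtain ⟨J, hJs, hJ⟩ := h1
    have h2 := bsum_ge (tri (eqs π)) (tri_card (eqs π)) J
    refine ⟨J, by omega, hJs, ?_⟩
    have h3 : (J.biUnion (tri (eqs π))).card ≤ 7 * J.card / 4 := by omega
    have h4 : 7 * J.card / 4 ≤ (univ : Finset (Fin 3 × Fin q)).card := by
      rw [card_univ, Fintype.card_prod, Fintype.card_fin, Fintype.card_fin]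
      have h5 : (2 * J.card : ℝ) ≤ 3 * q := by
        have h6 : (J.card : ℝ) ≤ s := by exact_mod_cast hJs
        have hδ1 : δ ^ 4 ≤ 1 := by
          refine pow_le_one₀ hδ.le ?_
          have h1 : 1 ≤ Real.exp 3 := Real.one_le_exp (by norm_num)
          have h2 : (1 : ℝ) ≤ D := by exact_mod_cast hD
          nlinarith [mul_pos hδ (Real.exp_pos 3), mul_le_mul h1 h2 (by norm_num) (by positivity)]
        nlinarith
      have h6 : 2 * J.card ≤ 3 * q := by exact_mod_cast h5
      omega
    obtain ⟨U, hU1, hU2⟩ := exists_subsuperset_card_eq (subset_univ _) h3 h4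
    exact ⟨U, hU2.2, fun j hj => (subset_biUnion_of_mem (tri (eqs π)) hj).trans hU1⟩
  have h1 : ((univ : Finset (Fin D → Fin 3 → Equiv.Perm (Fin q))).card : ℝ)
      ≤ ∑ k ∈ Icc 1 s, ∑ J ∈ (univ : Finset (Fin (D * q))).powersetCard k,
        ∑ U ∈ (univ : Finset (Fin 3 × Fin q)).powersetCard (7 * k / 4),
          (((univ : Finset (Fin D → Fin 3 → Equiv.Perm (Fin q))).filter
            fun π => ∀ j ∈ J, tri (eqs π) j ⊆ U).card : ℝ) := by
    have h2 : (univ : Finset (Fin D → Fin 3 → Equiv.Perm (Fin q)))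
        ⊆ (Icc 1 s).biUnion fun k => ((univ : Finset (Fin (D * q))).powersetCard k).biUnion
          fun J => ((univ : Finset (Fin 3 × Fin q)).powersetCard (7 * k / 4)).biUnion
            fun U => (univ : Finset (Fin D → Fin 3 → Equiv.Perm (Fin q))).filter
              fun π => ∀ j ∈ J, tri (eqs π) j ⊆ U := by
      intro F _
      obtain ⟨J, hJ0, hJs, U, hU, hF⟩ := hbad F
      simp only [mem_biUnion, mem_Icc, mem_powersetCard, mem_filter, mem_univ, true_and]
      exact ⟨J.card, ⟨hJ0, hJs⟩, J, ⟨subset_univ _, rfl⟩, U, ⟨subset_univ _, hU⟩, hF⟩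
    have h3 := (card_le_card h2).trans card_biUnion_le
    have h4 : (univ : Finset (Fin D → Fin 3 → Equiv.Perm (Fin q))).card
        ≤ ∑ k ∈ Icc 1 s, ∑ J ∈ (univ : Finset (Fin (D * q))).powersetCard k,
        ∑ U ∈ (univ : Finset (Fin 3 × Fin q)).powersetCard (7 * k / 4),
          ((univ : Finset (Fin D → Fin 3 → Equiv.Perm (Fin q))).filter
            fun π => ∀ j ∈ J, tri (eqs π) j ⊆ U).card :=
      h3.trans (sum_le_sum fun k _ => card_biUnion_le.trans
        (sum_le_sum fun J _ => card_biUnion_le))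
    exact_mod_cast h4
  have h2 : ((univ : Finset (Fin D → Fin 3 → Equiv.Perm (Fin q))).card : ℝ)
      = ((q.factorial : ℝ) ^ 3) ^ D := by
    simp [card_univ, Fintype.card_perm]
  have h3 : ∀ k ∈ Icc 1 s, ∑ J ∈ (univ : Finset (Fin (D * q))).powersetCard k,
        ∑ U ∈ (univ : Finset (Fin 3 × Fin q)).powersetCard (7 * k / 4),
          (((univ : Finset (Fin D → Fin 3 → Equiv.Perm (Fin q))).filter
            fun π => ∀ j ∈ J, tri (eqs π) j ⊆ U).card : ℝ)
          ≤ ((q.factorial : ℝ) ^ 3) ^ D * (1 / 4) ^ k := by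
    intro k hk
    rw [mem_Icc] at hk
    have h4 : ∀ J ∈ (univ : Finset (Fin (D * q))).powersetCard k,
        ∑ U ∈ (univ : Finset (Fin 3 × Fin q)).powersetCard (7 * k / 4),
          (((univ : Finset (Fin D → Fin 3 → Equiv.Perm (Fin q))).filter
            fun π => ∀ j ∈ J, tri (eqs π) j ⊆ U).card : ℝ)
          ≤ ((3 * q).choose (7 * k / 4) : ℝ) *
            (((q.factorial : ℝ) ^ 3) ^ D * ((((7 * k / 4 : ℕ) : ℝ) / (3 * q)) ^ 3) ^ k) := by
      intro J hJ
      have h5 : ∀ U ∈ (univ : Finset (Fin 3 × Fin q)).powersetCard (7 * k / 4),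
          (((univ : Finset (Fin D → Fin 3 → Equiv.Perm (Fin q))).filter
            fun π => ∀ j ∈ J, tri (eqs π) j ⊆ U).card : ℝ)
            ≤ ((q.factorial : ℝ) ^ 3) ^ D * ((((7 * k / 4 : ℕ) : ℝ) / (3 * q)) ^ 3) ^ k := by
        intro U hU
        have h6 := card_inside hq J U
        rw [(mem_powersetCard.1 hU).2, (mem_powersetCard.1 hJ).2] at h6
        exact h6
      refine (sum_le_sum h5).trans (le_of_eq ?_)
      rw [sum_const, card_powersetCard, card_univ, Fintype.card_prod,
        Fintype.card_fin, Fintype.card_fin, nsmul_eq_mul]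
    refine (sum_le_sum h4).trans ?_
    rw [sum_const, card_powersetCard, card_univ, Fintype.card_fin, nsmul_eq_mul]
    have h6 := union_num D (3 * q) (D * q) k δ hD hδ hδD hk.1
      (Nat.mul_le_mul_left D (by omega)) (by
      have : (k : ℝ) ≤ s := by exact_mod_cast hk.2
      push_cast
      linarith)
    push_cast at h6 ⊢
    calc ((D * q).choose k : ℝ) * (((3 * q).choose (7 * k / 4) : ℝ) *
            (((q.factorial : ℝ) ^ 3) ^ D * ((((7 * k / 4 : ℕ) : ℝ) / (3 * q)) ^ 3) ^ k))
        = ((q.factorial : ℝ) ^ 3) ^ D * (((D * q).choose k : ℝ) *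
            ((3 * q).choose (7 * k / 4) : ℝ) * ((((7 * k / 4 : ℕ) : ℝ) / (3 * q)) ^ 3) ^ k) := by
          ring
      _ ≤ _ := by
        refine mul_le_mul_of_nonneg_left ?_ (by positivity)
        exact h6
  have h4 := h1.trans (sum_le_sum h3)
  rw [h2, ← mul_sum] at h4
  have h5 : ∑ k ∈ Icc 1 s, (1 / 4 : ℝ) ^ k < 1 := by
    have h6 : ∀ s : ℕ, ∑ k ∈ Icc 1 s, (1 / 4 : ℝ) ^ k ≤ 1 / 3 - 1 / 3 * (1 / 4) ^ s := by
      intro s
      induction s with
      | zero => simp
      | succ s ih =>
        rw [sum_Icc_succ_top (by omega), pow_succ]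
        linarith
    have h7 := h6 s
    have h8 : (0 : ℝ) < (1 / 4) ^ s := by positivity
    linarith
  have h6 : (0 : ℝ) < ((q.factorial : ℝ) ^ 3) ^ D := by
    have : (0 : ℝ) < q.factorial := by exact_mod_cast Nat.factorial_pos q
    positivity
  nlinarith

theorem degree {D q : ℕ} (π : Fin D → Fin 3 → Equiv.Perm (Fin q)) (t : Fin 3) (v : Fin q) :
    ((univ : Finset (Fin (D * q))).filter fun e => eqs π e t = v).card ≤ D := by
  have h : ((univ : Finset (Fin (D * q))).filter fun e => eqs π e t = v).card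
      ≤ (univ : Finset (Fin D)).card := by
    refine card_le_card_of_injOn (fun e => (finProdFinEquiv.symm e).1) (fun _ _ => mem_univ _) ?_
    intro e he e' he' hee
    have h3 : π (finProdFinEquiv.symm e).1 t (finProdFinEquiv.symm e).2 = v :=
      (mem_filter.1 (mem_coe.1 he)).2
    have h4 : π (finProdFinEquiv.symm e').1 t (finProdFinEquiv.symm e').2 = v :=
      (mem_filter.1 (mem_coe.1 he')).2
    have h5 : (finProdFinEquiv.symm e).1 = (finProdFinEquiv.symm e').1 := hee
    rw [← h5] at h4
    have h2 := (π _ t).injective (h3.trans h4.symm)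
    exact finProdFinEquiv.symm.injective (Prod.ext h5 h2)
  rwa [card_univ, Fintype.card_fin] at h

end h8f

open h8f in
theorem exists_instance5 (ε : ℝ) (hε : 0 < ε) :
    ∃ Δ : ℕ, 0 < Δ ∧ ∃ β > (0 : ℝ), ∃ q₀ : ℕ, ∀ q : ℕ, q₀ ≤ q →
      ∃ (a : Fin (Δ * q) → Fin 3 → Fin q) (s : Fin (Δ * q) → Bool),
        (∀ y : Fin 3 × Fin q → Bool,
          (((Finset.univ : Finset (Fin (Δ * q))).filter fun e =>
            ∏ t : Fin 3, SDX.sg (y (t, a e t)) = SDX.sg (s e)).card : ℝ)
              ≤ (1 / 2 + ε) * (Δ * q)) ∧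
        (∀ C : Finset (Fin (Δ * q)), C.Nonempty → (C.card : ℝ) ≤ β * q →
          (C.card : ℝ) / 4 ≤ (((Finset.univ : Finset (Fin 3 × Fin q)).filter fun v =>
            Odd (C.filter fun e => a e v.1 = v.2).card).card : ℝ)) ∧
        ∀ t v, ((Finset.univ : Finset (Fin (Δ * q))).filter fun e => a e t = v).card ≤ Δ := by
  classical
  obtain ⟨D, hD⟩ := exists_nat_gt (3 * Real.log 2 / (2 * ε ^ 2))
  have hD0 : 0 < D := by
    rcases Nat.eq_zero_or_pos D with h | h
    · exfalso
      rw [h] at hD
      have : 0 < 3 * Real.log 2 / (2 * ε ^ 2) :=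
        div_pos (mul_pos (by norm_num) (Real.log_pos (by norm_num))) (by positivity)
      push_cast at hD
      linarith
    · exact h
  have hD1 : (0 : ℝ) < D := by exact_mod_cast hD0
  set δ : ℝ := 1 / (8 * Real.exp 3 * D) with hδ
  have hδ0 : 0 < δ := by positivity
  have hδD : 8 * Real.exp 3 * D * δ ≤ 1 := by
    rw [hδ, mul_one_div_cancel (by positivity)]
  refine ⟨D, hD0, δ ^ 4, by positivity, 1, fun q hq => ?_⟩
  have hq' : (0 : ℝ) < q := by exact_mod_cast hq
  obtain ⟨π, hF⟩ := expand_exists D q δ hD0 hq hδ0 hδD ⌊δ ^ 4 * q⌋₊ (by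
    have := Nat.floor_le (a := δ ^ 4 * (q : ℝ)) (by positivity)
    have : 0 < δ ^ 4 * q := by positivity
    linarith)
  obtain ⟨s, hs⟩ := SDX.h8.signs_exist (SDX.h8.tri (eqs π)) ε hε (by
    rw [Fintype.card_fin, Fintype.card_prod, Fintype.card_fin, Fintype.card_fin]
    rw [div_lt_iff₀ (by positivity)] at hD
    push_cast
    have := mul_lt_mul_of_pos_left hD hq'
    nlinarith)
  refine ⟨eqs π, s, fun y => ?_, fun C hC hCc => ?_, fun t v => degree π t v⟩
  · have h1 := hs y
    rw [Fintype.card_fin] at h1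
    have h2 : ∀ e, SDX.chr (SDX.h8.tri (eqs π) e) y = ∏ t : Fin 3, SDX.sg (y (t, eqs π e t)) :=
      fun e => by simp [SDX.chr, SDX.h8.tri, Finset.prod_map]
    simp only [h2] at h1
    push_cast at h1
    convert h1 using 3
  · have h1 := hF C (Nat.le_floor hCc)
    have h2 : SDX.bsum (SDX.h8.tri (eqs π)) C
        = (Finset.univ : Finset (Fin 3 × Fin q)).filter fun v =>
          Odd (C.filter fun e => eqs π e v.1 = v.2).card := by
      ext v
      rw [SDX.h8.mem_bsum, Finset.mem_filter]
      simp only [SDX.h8.mem_tri, Finset.mem_univ, true_and]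
    rw [h2] at h1
    have h3 : (C.card : ℝ) ≤ 2 * (((Finset.univ : Finset (Fin 3 × Fin q)).filter fun v =>
        Odd (C.filter fun e => eqs π e v.1 = v.2).card).card : ℝ) := by exact_mod_cast h1
    have h4 : (0 : ℝ) ≤ C.card := Nat.cast_nonneg _
    linarith

end SALES
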