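import Pool.Agent.SALES.Defs

/-!
# SALES, row D1: the order of the nodes for an assignment
-/

set_option autoImplicit false

namespace SALES

namespace h92

/-- chains of concatenated pieces -/
theorem chain_pieces {α β : Type*} (R : β → β → Prop) (f : α → List β) (hd la : α → β)
    (Q : α → α → Prop) (hne : ∀ a, (f a).IsChain R) (hhead : ∀ a, (f a).head? = some (hd a))
    (hlast : ∀ a, (f a).getLast? = some (la a)) (hQ : ∀ a b, Q a b → R (la a) (hd b)) :
    ∀ l : List α, l.IsChain Q → (l.flatMap f).IsChain R ∧
      (l.flatMap f).head? = l.head?.map hd ∧ (l.flatMap f).getLast? = l.getLast?.map la := by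
  intro l
  induction l with
  | nil => intro _; simp
  | cons a l ih =>
    intro h
    cases l with
    | nil => simp [hne, hhead, hlast]
    | cons b l =>
      rw [List.isChain_cons_cons] at h
      obtain ⟨h1, h2, h3⟩ := ih h.2
      rw [List.flatMap_cons]
      refine ⟨?_, ?_, ?_⟩
      · rw [List.isChain_append]
        refine ⟨hne a, h1, ?_⟩
        intro y hy z hz
        rw [hlast a] at hy
        rw [h2] at hz
        simp only [List.head?_cons, Option.map_some, Option.mem_some_iff] at hy hz
        rw [← hy, ← hz]
        exact hQ a b h.1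
      · rw [List.head?_append, hhead a]
        simp
      · rw [List.getLast?_append, h3, List.getLast?_cons_cons]
        have : (b :: l).getLast? ≠ none := by simp
        obtain ⟨c, hc⟩ := Option.ne_none_iff_exists'.1 this
        rw [hc]
        simp

theorem chain_finRange (n : ℕ) :
    (List.finRange n).IsChain (fun i j => j.val = i.val + 1) := by
  rw [List.isChain_iff_getElem]
  intro i hi
  simp

variable {P U K : ℕ}

open Classical in
/-- the slot at which the node `q p a` is visited -/
noncomputable def own (D : Data P U K) (x : Fin U → Bool) (pa : Fin P × Loc) :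
    Option (Fin U × Fin K) :=
  if h : ∃ t, x (D.var pa.1 t) ≠ pa.2 t then
    some (D.var pa.1 h.choose, D.slot pa.1 h.choose pa.2) else none

theorem own_spec {D : Data P U K} {x : Fin U → Bool} {p : Fin P} {a : Loc} {u : Fin U} {k : Fin K}
    (h : own D x (p, a) = some (u, k)) :
    ∃ t, x (D.var p t) ≠ a t ∧ D.var p t = u ∧ D.slot p t a = k := by
  unfold own at h
  split_ifs at h with h1
  simp only [Option.some.injEq, Prod.mk.injEq] at h
  exact ⟨h1.choose, h1.choose_spec, h.1, h.2⟩

theorem own_none {D : Data P U K} {x : Fin U → Bool} {p : Fin P} {a : Loc} :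
    own D x (p, a) = none ↔ a = fun t => x (D.var p t) := by
  unfold own
  split_ifs with h1
  · simp only [false_iff]
    intro h
    obtain ⟨t, ht⟩ := h1
    apply ht
    simp only [h]
  · simp only [true_iff]
    funext t
    by_contra h
    exact h1 ⟨t, fun e => h e.symm⟩

theorem own_inj {D : Data P U K} {x : Fin U → Bool} {pa pa' : Fin P × Loc} {uk : Fin U × Fin K}
    (h : own D x pa = some uk) (h' : own D x pa' = some uk) : pa = pa' := by
  obtain ⟨p, a⟩ := pa
  obtain ⟨p', a'⟩ := pa'
  obtain ⟨u, k⟩ := uk
  obtain ⟨t, _, h1, h2⟩ := own_spec h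
  obtain ⟨t', _, h1', h2'⟩ := own_spec h'
  obtain ⟨e1, _, e3⟩ := D.inj p t a p' t' a' (h1.trans h1'.symm) (h2.trans h2'.symm)
  rw [e1, e3]

open Classical in
/-- the node visited from the slot `(u, k)`, if any -/
noncomputable def sq (D : Data P U K) (x : Fin U → Bool) (u : Fin U) (k : Fin K) :
    List (Node P U K) :=
  if h : ∃ pa, own D x pa = some (u, k) then [.q h.choose.1 h.choose.2] else []

theorem sq_cases (D : Data P U K) (x : Fin U → Bool) (u : Fin U) (k : Fin K) :
    sq D x u k = [] ∨ ∃ p a, sq D x u k = [.q p a] ∧ own D x (p, a) = some (u, k) := by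
  unfold sq
  split_ifs with h
  · right
    exact ⟨_, _, rfl, h.choose_spec⟩
  · left
    rfl

theorem mem_sq {D : Data P U K} {x : Fin U → Bool} {u : Fin U} {k : Fin K} {p : Fin P} {a : Loc}
    (h : own D x (p, a) = some (u, k)) : Node.q p a ∈ sq D x u k := by
  unfold sq
  have h1 : ∃ pa, own D x pa = some (u, k) := ⟨_, h⟩
  rw [dif_pos h1]
  have := own_inj h1.choose_spec h
  rw [this]
  simp

/-- the piece of a slot, in the direction from left to right -/
noncomputable def piece (D : Data P U K) (x : Fin U → Bool) (u : Fin U) (k : Fin K) :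
    List (Node P U K) :=
  .l u k :: (sq D x u k ++ [.r u k, .g u k])

/-- the row of a variable, in the direction from left to right -/
noncomputable def fwd (D : Data P U K) (x : Fin U → Bool) (u : Fin U) : List (Node P U K) :=
  .f u :: (List.finRange K).flatMap (piece D x u)

/-- the slot of a node -/
noncomputable def slotOf (D : Data P U K) (x : Fin U → Bool) : Node P U K → Option (Fin U × Fin K)
  | .q p a => own D x (p, a)
  | .l u k => some (u, k)
  | .r u k => some (u, k)
  | .g u k => some (u, k)
  | _ => none

/-- the row of a node -/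
noncomputable def rowOf (D : Data P U K) (x : Fin U → Bool) : Node P U K → Option (Fin U)
  | .e u => some u
  | .f u => some u
  | v => (slotOf D x v).map Prod.fst

theorem slotOf_piece {D : Data P U K} {x : Fin U → Bool} {u : Fin U} {k : Fin K} {v : Node P U K}
    (h : v ∈ piece D x u k) : slotOf D x v = some (u, k) := by
  unfold piece at h
  simp only [List.mem_cons, List.mem_append, List.not_mem_nil, or_false] at h
  rcases h with rfl | h | rfl | rfl
  · rfl
  · rcases sq_cases D x u k with h1 | ⟨p, a, h1, h2⟩
    · rw [h1] at h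
      simp at h
    · rw [h1] at h
      simp only [List.mem_cons, List.not_mem_nil, or_false] at h
      rw [h]
      exact h2
  · rfl
  · rfl

theorem rowOf_of_slotOf {D : Data P U K} {x : Fin U → Bool} {u : Fin U} {k : Fin K}
    {v : Node P U K} (h : slotOf D x v = some (u, k)) : rowOf D x v = some u := by
  cases v <;> simp_all [rowOf, slotOf]

theorem rowOf_fwd {D : Data P U K} {x : Fin U → Bool} {u : Fin U} {v : Node P U K}
    (h : v ∈ fwd D x u) : rowOf D x v = some u := by
  unfold fwd at h
  rw [List.mem_cons, List.mem_flatMap] at h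
  rcases h with rfl | ⟨k, _, h⟩
  · rfl
  · exact rowOf_of_slotOf (slotOf_piece h)

theorem nodup_piece (D : Data P U K) (x : Fin U → Bool) (u : Fin U) (k : Fin K) :
    (piece D x u k).Nodup := by
  unfold piece
  rcases sq_cases D x u k with h1 | ⟨p, a, h1, _⟩ <;> rw [h1] <;> simp

theorem nodup_fwd (D : Data P U K) (x : Fin U → Bool) (u : Fin U) : (fwd D x u).Nodup := by
  unfold fwd
  rw [List.nodup_cons, List.mem_flatMap, List.nodup_flatMap]
  refine ⟨?_, fun k _ => nodup_piece D x u k, ?_⟩
  · rintro ⟨k, _, h⟩
    have := slotOf_piece h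
    simp [slotOf] at this
  · refine (List.nodup_finRange K).imp ?_
    intro k k' hk
    simp only [Function.onFun, List.disjoint_left]
    intro v h1 h2
    have := (slotOf_piece h1).symm.trans (slotOf_piece h2)
    simp only [Option.some.injEq, Prod.mk.injEq, true_and] at this
    exact hk this

theorem chain_fwd (D : Data P U K) (x : Fin U → Bool) (u : Fin U) (hK : 0 < K)
    (S : Node P U K → Node P U K → Prop) (h1 : S (.f u) (.l u ⟨0, hK⟩))
    (h2 : ∀ k, S (.l u k) (.r u k))
    (h3 : ∀ p a k, own D x (p, a) = some (u, k) → S (.l u k) (.q p a) ∧ S (.q p a) (.r u k))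
    (h4 : ∀ k, S (.r u k) (.g u k)) (h5 : ∀ k k' : Fin K, k'.val = k.val + 1 → S (.g u k) (.l u k')) :
    (fwd D x u).IsChain S ∧ (fwd D x u).getLast? = some (.g u ⟨K - 1, by omega⟩) := by
  have hp := chain_pieces S (piece D x u) (fun k => .l u k) (fun k => .g u k)
    (fun i j => j.val = i.val + 1) ?_ ?_ ?_ (fun a b h => h5 a b h) _ (chain_finRange K)
  · have e1 : (List.finRange K).head? = some ⟨0, hK⟩ := by
      rw [List.head?_eq_getElem?]
      simp [hK]
    have e2 : (List.finRange K).getLast? = some ⟨K - 1, by omega⟩ := by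
      rw [List.getLast?_eq_getElem?]
      simp [hK]
    obtain ⟨c1, c2, c3⟩ := hp
    rw [e1] at c2
    rw [e2] at c3
    simp only [Option.map_some] at c2 c3
    unfold fwd
    obtain ⟨ys, hys⟩ := List.head?_eq_some_iff.1 c2
    rw [hys] at c1 c3 ⊢
    refine ⟨?_, ?_⟩
    · rw [List.isChain_cons_cons]
      exact ⟨h1, c1⟩
    · rw [List.getLast?_cons_cons]
      exact c3
  · intro k
    unfold piece
    rcases sq_cases D x u k with e | ⟨p, a, e, ho⟩
    · rw [e]
      simp [h2, h4]
    · rw [e]
      have := h3 p a k ho
      simp [this, h4]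
  · intro k
    rfl
  · intro k
    change (Node.l u k :: (sq D x u k ++ [.r u k, .g u k])).getLast? = _
    have e : Node.l u k :: (sq D x u k ++ [.r u k, .g u k]) =
        (.l u k :: (sq D x u k ++ [.r u k])) ++ [.g u k] := by simp
    rw [e, List.getLast?_concat]

open Classical in
/-- the row of a variable, in its direction -/
noncomputable def row (D : Data P U K) (x : Fin U → Bool) (u : Fin U) : List (Node P U K) :=
  .e u :: (if x u = true then fwd D x u else (fwd D x u).reverse)

theorem mem_row {D : Data P U K} {x : Fin U → Bool} {u : Fin U} {v : Node P U K} :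
    v ∈ row D x u ↔ v = .e u ∨ v ∈ fwd D x u := by
  unfold row
  split_ifs <;> simp

theorem rowOf_row {D : Data P U K} {x : Fin U → Bool} {u : Fin U} {v : Node P U K}
    (h : v ∈ row D x u) : rowOf D x v = some u := by
  rcases mem_row.1 h with rfl | h
  · rfl
  · exact rowOf_fwd h

theorem e_notMem (D : Data P U K) (x : Fin U → Bool) (u u' : Fin U) :
    Node.e u' ∉ fwd D x u := by
  intro h
  unfold fwd at h
  rw [List.mem_cons, List.mem_flatMap] at h
  rcases h with h | ⟨k, _, h⟩
  · simp at h
  · have := slotOf_piece h
    simp [slotOf] at this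

theorem nodup_row (D : Data P U K) (x : Fin U → Bool) (u : Fin U) : (row D x u).Nodup := by
  unfold row
  rw [List.nodup_cons]
  split_ifs with h
  · exact ⟨e_notMem D x u u, nodup_fwd D x u⟩
  · rw [List.mem_reverse, List.nodup_reverse]
    exact ⟨e_notMem D x u u, nodup_fwd D x u⟩

/-- the last node of a row -/
noncomputable def rlast (x : Fin U → Bool) (hK : 0 < K) (u : Fin U) : Node P U K :=
  if x u = true then .g u ⟨K - 1, by omega⟩ else .f u

/-- the relation of consecutive nodes -/
def Nx (D : Data P U K) (x : Fin U → Bool) (v w : Node P U K) : Prop :=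
  Arc D v w ∧ ∀ p, v = .d p → w = .q p fun t => x (D.var p t)

theorem chain_row (D : Data P U K) (x : Fin U → Bool) (hK : 0 < K) (u : Fin U) :
    (row D x u).IsChain (Nx D x) ∧ (row D x u).getLast? = some (rlast x hK u) := by
  unfold row rlast
  rcases hx : x u with _ | _
  · have h := chain_fwd D x u hK (fun v w => Nx D x w v) ?_ ?_ ?_ ?_ ?_
    · simp only [Bool.false_eq_true, if_false]
      obtain ⟨h1, h2⟩ := h
      have h3 : (fwd D x u).reverse.IsChain (Nx D x) := by
        rw [List.isChain_reverse]
        exact h1
      have h4 : (fwd D x u).reverse.head? = some (.g u ⟨K - 1, by omega⟩) := by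
        rw [List.head?_reverse, h2]
      have h5 : (fwd D x u).reverse.getLast? = some (.f u) := by
        rw [List.getLast?_reverse]
        rfl
      obtain ⟨ys, hys⟩ := List.head?_eq_some_iff.1 h4
      rw [hys] at h3 h5 ⊢
      refine ⟨?_, ?_⟩
      · rw [List.isChain_cons_cons]
        refine ⟨⟨?_, ?_⟩, h3⟩
        · refine ⟨rfl, ?_⟩
          simp only
          omega
        · intro p hp
          simp at hp
      · rw [List.getLast?_cons_cons]
        exact h5
    · exact ⟨⟨rfl, rfl⟩, fun p hp => by simp at hp⟩
    · intro k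
      exact ⟨⟨rfl, rfl⟩, fun p hp => by simp at hp⟩
    · intro p a k ho
      obtain ⟨t, h1, h2, h3⟩ := own_spec ho
      have h4 : a t = true := by
        rw [h2, hx] at h1
        simpa using h1.symm
      exact ⟨⟨⟨t, h4, h2, h3⟩, fun p hp => by simp at hp⟩,
        ⟨⟨t, h4, h2, h3⟩, fun p hp => by simp at hp⟩⟩
    · intro k
      exact ⟨⟨rfl, rfl⟩, fun p hp => by simp at hp⟩
    · intro k k' hk
      exact ⟨⟨rfl, hk⟩, fun p hp => by simp at hp⟩
  · have h := chain_fwd D x u hK (Nx D x) ?_ ?_ ?_ ?_ ?_
    · simp only [if_true]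
      obtain ⟨h1, h2⟩ := h
      refine ⟨?_, ?_⟩
      · unfold fwd at h1 ⊢
        rw [List.isChain_cons_cons]
        refine ⟨⟨rfl, ?_⟩, h1⟩
        intro p hp
        simp at hp
      · unfold fwd at h2 ⊢
        rw [List.getLast?_cons_cons]
        exact h2
    · exact ⟨⟨rfl, rfl⟩, fun p hp => by simp at hp⟩
    · intro k
      exact ⟨⟨rfl, rfl⟩, fun p hp => by simp at hp⟩
    · intro p a k ho
      obtain ⟨t, h1, h2, h3⟩ := own_spec ho
      have h4 : a t = false := by
        rw [h2, hx] at h1
        simpa using h1.symm
      exact ⟨⟨⟨t, h4, h2, h3⟩, fun p hp => by simp at hp⟩,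
        ⟨⟨t, h4, h2, h3⟩, fun p hp => by simp at hp⟩⟩
    · intro k
      exact ⟨⟨rfl, rfl⟩, fun p hp => by simp at hp⟩
    · intro k k' hk
      exact ⟨⟨rfl, hk⟩, fun p hp => by simp at hp⟩

/-- the chain of the equations -/
def chE (D : Data P U K) (x : Fin U → Bool) (p : Fin P) : List (Node P U K) :=
  [.d p, .q p fun t => x (D.var p t)]

theorem rowOf_chE {D : Data P U K} {x : Fin U → Bool} {p : Fin P} {v : Node P U K}
    (h : v ∈ chE D x p) : rowOf D x v = none := by
  unfold chE at h
  simp only [List.mem_cons, List.not_mem_nil, or_false] at h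
  rcases h with rfl | rfl
  · rfl
  · have h1 : own D x (p, fun t => x (D.var p t)) = none := own_none.2 rfl
    simp [rowOf, slotOf, h1]

end h92

open h92 in
theorem exists_order {P U K : ℕ} (hP : 0 < P) (hU : 0 < U) (hK : 0 < K) (D : Data P U K)
    (x : Fin U → Bool) :
    ∃ L : List (Node P U K), (Node.d ⟨0, hP⟩ :: L ++ [Node.o]).Nodup ∧
      (∀ v, v ∈ Node.d ⟨0, hP⟩ :: L ++ [Node.o]) ∧
      List.IsChain (fun v w => Arc D v w ∧ ∀ p, v = .d p → w = .q p fun t => x (D.var p t))
        (Node.d ⟨0, hP⟩ :: L ++ [Node.o]) := by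
  have hA := chain_pieces (Nx D x) (chE D x) (fun p => .d p) (fun p => .q p fun t => x (D.var p t))
    (fun i j => j.val = i.val + 1) (by
      intro p
      unfold chE
      simp only [List.isChain_cons_cons, List.isChain_singleton, and_true]
      refine ⟨rfl, ?_⟩
      intro p' hp
      simp only [Node.d.injEq] at hp
      rw [hp]) (fun p => rfl) (fun p => rfl) (by
      intro p p' h
      exact ⟨h, fun p hp => by simp at hp⟩) _ (chain_finRange P)
  have hB := chain_pieces (Nx D x) (row D x) (fun u => .e u) (rlast x hK)
    (fun i j => j.val = i.val + 1) (fun u => (chain_row D x hK u).1) (fun u => rfl)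
    (fun u => (chain_row D x hK u).2) (by
      intro u u' h
      unfold rlast
      split_ifs with hx
      · refine ⟨⟨?_, h⟩, fun p hp => by simp at hp⟩
        simp only
        omega
      · exact ⟨h, fun p hp => by simp at hp⟩) _ (chain_finRange U)
  have e1 : ∀ n (hn : 0 < n), (List.finRange n).head? = some ⟨0, hn⟩ := by
    intro n hn
    rw [List.head?_eq_getElem?]
    simp [hn]
  have e2 : ∀ n (hn : 0 < n), (List.finRange n).getLast? = some ⟨n - 1, by omega⟩ := by
    intro n hn
    rw [List.getLast?_eq_getElem?]
    simp [hn]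
  rw [e1 P hP, e2 P hP] at hA
  rw [e1 U hU, e2 U hU] at hB
  simp only [Option.map_some] at hA hB
  obtain ⟨a1, a2, a3⟩ := hA
  obtain ⟨b1, b2, b3⟩ := hB
  set A := (List.finRange P).flatMap (chE D x) with hAdef
  set B := (List.finRange U).flatMap (row D x) with hBdef
  have hrA : ∀ v ∈ A, rowOf D x v = none := by
    intro v hv
    rw [hAdef, List.mem_flatMap] at hv
    obtain ⟨p, _, hv⟩ := hv
    exact rowOf_chE hv
  have hoA : Node.o ∉ A := by
    intro hv
    rw [hAdef, List.mem_flatMap] at hv
    obtain ⟨p, _, hv⟩ := hv
    simp [chE] at hv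
  have hrB : ∀ v ∈ B, ∃ u, rowOf D x v = some u := by
    intro v hv
    rw [hBdef, List.mem_flatMap] at hv
    obtain ⟨u, _, hv⟩ := hv
    exact ⟨u, rowOf_row hv⟩
  obtain ⟨ys, hys⟩ := List.head?_eq_some_iff.1 a2
  refine ⟨ys ++ B, ?_, ?_, ?_⟩
  · have e : Node.d ⟨0, hP⟩ :: (ys ++ B) ++ [Node.o] = (A ++ B) ++ [Node.o] := by
      rw [hys]
      simp
    rw [e, List.nodup_append, List.nodup_append]
    refine ⟨⟨?_, ?_, ?_⟩, List.nodup_singleton _, ?_⟩
    · rw [hAdef, List.nodup_flatMap]
      refine ⟨?_, ?_⟩
      · intro p _
        simp [chE]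
      · refine (List.nodup_finRange P).imp ?_
        intro p p' hp
        simp only [Function.onFun, List.disjoint_left, chE]
        intro v h1 h2
        simp only [List.mem_cons, List.not_mem_nil, or_false] at h1 h2
        rcases h1 with rfl | rfl
        · simp only [Node.d.injEq, reduceCtorEq, or_false] at h2
          exact hp h2
        · simp only [reduceCtorEq, Node.q.injEq, false_or] at h2
          exact hp h2.1
    · rw [hBdef, List.nodup_flatMap]
      refine ⟨fun u _ => nodup_row D x u, ?_⟩
      refine (List.nodup_finRange U).imp ?_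
      intro u u' hu
      simp only [Function.onFun, List.disjoint_left]
      intro v h1 h2
      have := (rowOf_row h1).symm.trans (rowOf_row h2)
      simp only [Option.some.injEq] at this
      exact hu this
    · intro v hv w hw hvw
      subst hvw
      obtain ⟨u, hu⟩ := hrB v hw
      rw [hrA v hv] at hu
      simp at hu
    · intro v hv w hw hvw
      simp only [List.mem_cons, List.not_mem_nil, or_false] at hw
      subst hvw
      rw [hw, List.mem_append] at hv
      rcases hv with hv | hv
      · exact hoA hv
      · obtain ⟨u, hu⟩ := hrB _ hv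
        simp [rowOf, slotOf] at hu
  · intro v
    have e : Node.d ⟨0, hP⟩ :: (ys ++ B) ++ [Node.o] = (A ++ B) ++ [Node.o] := by
      rw [hys]
      simp
    rw [e, List.mem_append, List.mem_append]
    have hB' : ∀ u, v ∈ row D x u → v ∈ B := by
      intro u hu
      rw [hBdef, List.mem_flatMap]
      exact ⟨u, List.mem_finRange u, hu⟩
    have hP' : ∀ u k, v ∈ piece D x u k → v ∈ row D x u := by
      intro u k h
      rw [mem_row]
      right
      unfold fwd
      rw [List.mem_cons, List.mem_flatMap]
      right
      exact ⟨k, List.mem_finRange k, h⟩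
    cases v with
    | d p =>
      left; left
      rw [hAdef, List.mem_flatMap]
      exact ⟨p, List.mem_finRange p, by simp [chE]⟩
    | q p a =>
      left
      rcases h : own D x (p, a) with _ | ⟨u, k⟩
      · left
        rw [own_none] at h
        rw [hAdef, List.mem_flatMap]
        exact ⟨p, List.mem_finRange p, by simp [chE, h]⟩
      · right
        refine hB' u (hP' u k ?_)
        unfold piece
        simp [mem_sq h]
    | e u =>
      left; right
      exact hB' u (mem_row.2 (Or.inl rfl))
    | f u =>
      left; right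
      refine hB' u (mem_row.2 (Or.inr ?_))
      simp [fwd]
    | l u k =>
      left; right
      exact hB' u (hP' u k (by simp [piece]))
    | r u k =>
      left; right
      exact hB' u (hP' u k (by simp [piece]))
    | g u k =>
      left; right
      exact hB' u (hP' u k (by simp [piece]))
    | o => right; simp
  · have e : Node.d ⟨0, hP⟩ :: (ys ++ B) ++ [Node.o] = (A ++ B) ++ [Node.o] := by
      rw [hys]
      simp
    rw [e]
    change List.IsChain (Nx D x) _
    rw [List.isChain_append, List.isChain_append]
    refine ⟨⟨a1, b1, ?_⟩, List.isChain_singleton _, ?_⟩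
    · intro v hv w hw
      rw [a3] at hv
      rw [b2] at hw
      simp only [Option.mem_some_iff] at hv hw
      rw [← hv, ← hw]
      refine ⟨⟨?_, rfl⟩, fun p hp => by simp at hp⟩
      simp only
      omega
    · intro v hv w hw
      rw [List.getLast?_append, b3] at hv
      simp only [Option.some_or, Option.mem_some_iff, List.head?_cons] at hv hw
      rw [← hv, ← hw]
      unfold rlast
      split_ifs with hx
      · refine ⟨⟨?_, ?_⟩, fun p hp => by simp at hp⟩
        · simp only
          omega
        · simp only
          omega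
      · refine ⟨?_, fun p hp => by simp at hp⟩
        change U - 1 + 1 = U
        omega

end SALES
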