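import Pool.Agent.SALES.Order

/-!
# SALES, row D2: the tour of an assignment

The three copies of the nodes in the order of the list of row D1, followed by the extra cities.
-/

set_option autoImplicit false

namespace SALES

namespace h78

/-- a closed chain as a permutation -/
theorem formPerm_rel {α : Type} [DecidableEq α] {R : α → α → Prop} {a b : α} {L : List α}
    (hn : (a :: L ++ [b]).Nodup) (hc : List.IsChain R (a :: L ++ [b])) (hba : R b a) (x : α)
    (hx : x ∈ a :: L ++ [b]) : R x ((a :: L ++ [b]).formPerm x) := by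
  obtain ⟨n, hlt, rfl⟩ := List.getElem_of_mem hx
  by_cases h : n + 1 < (a :: L ++ [b]).length
  · rw [List.formPerm_apply_lt_getElem _ hn n h]
    exact List.isChain_iff_getElem.1 hc n h
  · have h1 : n = (a :: L ++ [b]).length - 1 := by omega
    have h2 : (a :: L ++ [b])[n] = b := by
      subst h1
      rw [← List.getLast_eq_getElem]
      · simp
      · simp
    rw [h2]
    have h3 := List.formPerm_apply_getLast a (L ++ [b])
    have h4 : (a :: (L ++ [b])).getLast (List.cons_ne_nil a (L ++ [b])) = b := by simp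
    rw [h4] at h3
    have h5 : (a :: L ++ [b]).formPerm b = a := h3
    rw [h5]
    exact hba

variable {P U K : ℕ}

/-- the three copies of a node -/
def cop (Z : ℕ) (v : Node P U K) : List (City P U K Z) := [.inl (v, 0), .inl (v, 1), .inl (v, 2)]

/-- a directed edge which leaves `d p` to the right `q` -/
def RR {Z : ℕ} (D : Data P U K) (x : Fin U → Bool) (a b : City P U K Z) : Prop :=
  Dir D a b ∧ ∀ p, a = .inl (.d p, 2) → b = .inl (.q p fun t => x (D.var p t), 0)

theorem chain_cop {Z : ℕ} (D : Data P U K) (x : Fin U → Bool) : ∀ (v : Node P U K)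
    (M : List (Node P U K)),
    List.IsChain (fun v w => Arc D v w ∧ ∀ p, v = .d p → w = .q p fun t => x (D.var p t)) (v :: M) →
      List.IsChain (RR D x) ((v :: M).flatMap (cop Z)) := by
  have h01 : ∀ v : Node P U K, RR (Z := Z) D x (.inl (v, 0)) (.inl (v, 1)) := fun v =>
    ⟨Or.inl ⟨rfl, rfl⟩, fun p h => by simp at h⟩
  have h12 : ∀ v : Node P U K, RR (Z := Z) D x (.inl (v, 1)) (.inl (v, 2)) := fun v =>
    ⟨Or.inl ⟨rfl, rfl⟩, fun p h => by simp at h⟩
  intro v M
  induction M generalizing v with
  | nil =>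
    intro _
    simp only [List.flatMap_cons, List.flatMap_nil, cop, List.append_nil, List.isChain_cons_cons,
      List.isChain_singleton, and_true]
    exact ⟨h01 v, h12 v⟩
  | cons w M ih =>
    intro h
    rw [List.isChain_cons_cons] at h
    have h1 := ih w h.2
    have h2 : (v :: w :: M).flatMap (cop Z) =
        .inl (v, 0) :: .inl (v, 1) :: .inl (v, 2) :: (w :: M).flatMap (cop Z) := rfl
    have h3 : (w :: M).flatMap (cop Z) =
        .inl (w, 0) :: .inl (w, 1) :: .inl (w, 2) :: M.flatMap (cop Z) := rfl
    rw [h2, List.isChain_cons_cons, List.isChain_cons_cons]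
    refine ⟨h01 v, h12 v, ?_⟩
    rw [h3] at h1 ⊢
    rw [List.isChain_cons_cons]
    refine ⟨⟨Or.inr ⟨rfl, rfl, h.1.1⟩, ?_⟩, h1⟩
    intro p hp
    have hv : v = .d p := congrArg Prod.fst (Sum.inl.inj hp)
    rw [h.1.2 p hv]

end h78

open h78 in
open Classical in
/-- row D2 -/
theorem exists_tour {P U K Z : ℕ} (hP : 0 < P) (hU : 0 < U) (hK : 0 < K) (hZ : 0 < Z)
    (D : Data P U K) (x : Fin U → Bool) :
    ∃ C : Equiv.Perm (City P U K Z), C.IsCycleOn Set.univ ∧ ∀ bad : Fin P → Loc → Prop,
      cost D bad C = (Finset.univ.filter fun p => bad p fun t => x (D.var p t)).card := by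
  obtain ⟨L, hn, hall, hch⟩ := exists_order hP hU hK D x
  obtain ⟨Y, rfl⟩ : ∃ Y, Z = Y + 1 := ⟨Z - 1, by omega⟩
  set M := Node.d ⟨0, hP⟩ :: L ++ [Node.o] with hM
  set T : List (City P U K (Y + 1)) :=
    M.flatMap (cop (Y + 1)) ++ (List.finRange (Y + 1)).map Sum.inr with hT
  have hTn : T.Nodup := by
    rw [hT, List.nodup_append]
    refine ⟨?_, ?_, ?_⟩
    · rw [List.nodup_flatMap]
      refine ⟨fun v _ => by simp [cop], ?_⟩
      refine List.Pairwise.imp_of_mem ?_ hn
      intro v w _ _ hvw
      show List.Disjoint _ _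
      intro c h1 h2
      simp only [cop, List.mem_cons, List.not_mem_nil, or_false] at h1 h2
      apply hvw
      rcases h1 with rfl | rfl | rfl <;> rcases h2 with h | h | h <;>
        exact congrArg Prod.fst (Sum.inl.inj h)
    · exact (List.nodup_finRange _).map Sum.inr_injective
    · intro a h1 b h2 hab
      rw [List.mem_flatMap] at h1
      rw [List.mem_map] at h2
      obtain ⟨v, _, hv⟩ := h1
      obtain ⟨z, _, rfl⟩ := h2
      subst hab
      simp [cop] at hv
  have hTall : ∀ c, c ∈ T := by
    intro c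
    rw [hT, List.mem_append]
    rcases c with ⟨v, i⟩ | z
    · left
      rw [List.mem_flatMap]
      refine ⟨v, hall v, ?_⟩
      fin_cases i <;> simp [cop]
    · right
      rw [List.mem_map]
      exact ⟨z, List.mem_finRange z, rfl⟩
  have hTch : List.IsChain (RR D x) T := by
    rw [hT, List.isChain_append]
    refine ⟨chain_cop D x _ _ hch, ?_, ?_⟩
    · rw [List.isChain_iff_getElem]
      intro i hi
      rw [List.getElem_map, List.getElem_map, List.getElem_finRange, List.getElem_finRange]
      exact ⟨rfl, fun p h => by cases h⟩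
    · intro a ha b hb
      have h0 : M.flatMap (cop (Y + 1)) = ((Node.d ⟨0, hP⟩ :: L).flatMap (cop (Y + 1)) ++
          [.inl (Node.o, 0), .inl (Node.o, 1)]) ++ [.inl (Node.o, 2)] := by
        rw [hM, List.flatMap_append]
        simp [cop]
      have h1 : (M.flatMap (cop (Y + 1))).getLast? = some (.inl (Node.o, 2)) := by
        rw [h0, List.getLast?_concat]
      rw [h1] at ha
      have h2 : ((List.finRange (Y + 1)).map (Sum.inr : Fin (Y + 1) → City P U K (Y + 1))).head?
          = some (.inr 0) := by
        simp [List.finRange_succ]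
      rw [h2] at hb
      have ha' : .inl (Node.o, 2) = a := by simpa using ha
      have hb' : .inr 0 = b := by simpa using hb
      rw [← ha', ← hb']
      exact ⟨⟨rfl, rfl, rfl⟩, fun p h => by simp at h⟩
  -- the shape `a :: L ++ [b]`
  obtain ⟨L', hL'⟩ : ∃ L', T = .inl (Node.d ⟨0, hP⟩, 0) :: L' ++ [.inr (Fin.last Y)] := by
    refine ⟨.inl (Node.d ⟨0, hP⟩, 1) :: .inl (Node.d ⟨0, hP⟩, 2) ::
      ((L ++ [Node.o]).flatMap (cop (Y + 1)) ++ (List.finRange Y).map fun z => .inr z.castSucc), ?_⟩
    rw [hT, hM]
    have h1 : (List.finRange (Y + 1)).map (Sum.inr : Fin (Y + 1) → City P U K (Y + 1)) =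
        (List.finRange Y).map (fun z => .inr z.castSucc) ++ [.inr (Fin.last Y)] := by
      rw [List.finRange_succ_last, List.map_append, List.map_map]
      rfl
    rw [h1]
    simp [cop]
  have hba : RR D x (.inr (Fin.last Y)) (.inl (Node.d ⟨0, hP⟩, 0) : City P U K (Y + 1)) :=
    ⟨⟨rfl, rfl, ⟨0, hP⟩, rfl, rfl⟩, fun p h => by cases h⟩
  have hstep : ∀ c, RR D x c (T.formPerm c) := by
    intro c
    have h1 := hTall c
    rw [hL'] at hTn hTch h1 ⊢
    exact formPerm_rel hTn hTch hba c h1
  refine ⟨T.formPerm, ?_, fun bad => ?_⟩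
  · have h1 := hTn.isCycleOn_formPerm
    have h2 : {a | a ∈ T} = Set.univ := Set.eq_univ_of_forall hTall
    rw [h2] at h1
    exact h1
  · unfold cost
    have hset : (Finset.univ.filter fun c => ¬ Near D bad c (T.formPerm c)) =
        (Finset.univ.filter fun p => bad p fun t => x (D.var p t)).image
          fun p => (.inl (Node.d p, 2) : City P U K (Y + 1)) := by
      ext c
      rw [Finset.mem_filter, Finset.mem_image]
      constructor
      · rintro ⟨_, h⟩
        have h1 : Read bad c (T.formPerm c) := by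
          by_contra h2
          exact h (Or.inl ⟨(hstep c).1, h2⟩)
        obtain ⟨p, a, h2, h3, h4⟩ := h1
        have h5 := (hstep c).2 p h3
        rw [h4] at h5
        have h6 : (Node.q p a : Node P U K) = .q p fun t => x (D.var p t) :=
          congrArg Prod.fst (Sum.inl.inj h5)
        have h7 : a = fun t => x (D.var p t) := by
          injection h6
        refine ⟨p, ?_, h3.symm⟩
        rw [Finset.mem_filter]
        refine ⟨Finset.mem_univ _, ?_⟩
        rw [← h7]
        exact h2
      · rintro ⟨p, hp, rfl⟩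
        rw [Finset.mem_filter] at hp
        refine ⟨Finset.mem_univ _, ?_⟩
        rw [(hstep (.inl (Node.d p, 2))).2 p rfl]
        rintro (⟨_, h⟩ | ⟨h, _⟩)
        · exact h ⟨p, _, hp.2, rfl, rfl⟩
        · rcases h with ⟨h, _⟩ | ⟨h, _⟩
          · exact absurd h (by simp)
          · exact absurd h (by decide)
    rw [hset, Finset.card_image_of_injective]
    intro p p' h
    have h1 : (Node.d p : Node P U K) = .d p' := congrArg Prod.fst (Sum.inl.inj h)
    injection h1

end SALES
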