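import Mathlib
import Pool.Agent.SALES.Defs
import Pool.Agent.SALES.Count
import Pool.Agent.SALES.Tour
import Pool.Agent.Helper71.SDX.Defs

/-!
# SALES: from tours to violated equations, the reduction
-/

set_option autoImplicit false

open scoped BigOperators Matrix

namespace SALES

namespace h70

/-- the nodes as a sum type -/
def nodeEquiv (P U K : ℕ) : Node P U K ≃ (Fin P ⊕ (Fin P × Loc)) ⊕ ((Fin U ⊕ Fin U) ⊕
    ((Fin U × Fin K) ⊕ ((Fin U × Fin K) ⊕ (Fin U × Fin K)))) ⊕ Unit where
  toFun
    | .d p => .inl (.inl p)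
    | .q p a => .inl (.inr (p, a))
    | .e u => .inr (.inl (.inl (.inl u)))
    | .f u => .inr (.inl (.inl (.inr u)))
    | .l u k => .inr (.inl (.inr (.inl (u, k))))
    | .r u k => .inr (.inl (.inr (.inr (.inl (u, k)))))
    | .g u k => .inr (.inl (.inr (.inr (.inr (u, k)))))
    | .o => .inr (.inr ())
  invFun
    | .inl (.inl p) => .d p
    | .inl (.inr (p, a)) => .q p a
    | .inr (.inl (.inl (.inl u))) => .e u
    | .inr (.inl (.inl (.inr u))) => .f u
    | .inr (.inl (.inr (.inl (u, k)))) => .l u k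
    | .inr (.inl (.inr (.inr (.inl (u, k))))) => .r u k
    | .inr (.inl (.inr (.inr (.inr (u, k))))) => .g u k
    | .inr (.inr ()) => .o
  left_inv v := by cases v <;> rfl
  right_inv v := by
    rcases v with (p | ⟨p, a⟩) | ((u | u) | (⟨u, k⟩ | (⟨u, k⟩ | ⟨u, k⟩))) | ⟨⟩ <;> rfl

end h70

theorem card_node (P U K : ℕ) : Fintype.card (Node P U K) = 9 * P + U * (2 + 3 * K) + 1 := by
  rw [Fintype.card_congr (h70.nodeEquiv P U K)]
  simp only [Fintype.card_sum, Fintype.card_prod, Fintype.card_fin, Fintype.card_fun,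
    Fintype.card_bool, Fintype.card_unit]
  ring

namespace h70

/-- a cycle transported along a bijection -/
theorem cyc {α β : Type} (ψ : α ≃ β) (C : Equiv.Perm α) (h : C.IsCycleOn Set.univ) :
    (ψ.permCongr C).IsCycleOn Set.univ := by
  refine ⟨Set.bijOn_univ.2 (ψ.permCongr C).bijective, fun x _ y _ => ?_⟩
  obtain ⟨i, hi⟩ := h.2 (Set.mem_univ (ψ.symm x)) (Set.mem_univ (ψ.symm y))
  refine ⟨i, ?_⟩
  have h1 : (ψ.permCongr C) ^ i = ψ.permCongr (C ^ i) := (map_zpow ψ.permCongrHom C i).symm
  rw [h1, Equiv.permCongr_apply, hi, Equiv.apply_symm_apply]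

/-- potential equations -/
noncomputable def eP (M b : ℕ) : Fin (M * b ^ 3) ≃ Fin M × (Fin 3 → Fin b) :=
  Fintype.equivOfCardEq (by simp)

/-- the variable number `t` of the potential equation `p` -/
noncomputable def vr {m b M : ℕ} (A : Fin M → Fin 3 → Fin m) (p : Fin (M * b ^ 3)) (t : Fin 3) :
    Fin (m * b) :=
  finProdFinEquiv (A (eP M b p).1 t, (eP M b p).2 t)

open Classical in
/-- the triples of one variable inject into the slots -/
theorem exists_slot {m b M Δ : ℕ} (hb : 0 < b) (hΔ : 0 < Δ) (A : Fin M → Fin 3 → Fin m)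
    (hdeg : ∀ j, (Finset.univ.filter fun e => ∃ t, A e t = j).card ≤ Δ) (u : Fin (m * b)) :
    ∃ f : Fin (M * b ^ 3) × Fin 3 × Loc → Fin (24 * Δ * b ^ 3), ∀ z z',
      vr A z.1 z.2.1 = u → vr A z'.1 z'.2.1 = u → f z = f z' → z = z' := by
  set T : Finset (Fin (M * b ^ 3) × Fin 3 × Loc) := Finset.univ.filter fun z =>
    vr A z.1 z.2.1 = u with hT
  have hcard : T.card ≤ 24 * Δ * b ^ 3 := by
    set T' : Finset (Fin M × (Fin 3 → Fin b) × Fin 3 × Loc) :=
      (Finset.univ.filter fun e => ∃ t, A e t = (finProdFinEquiv.symm u).1) ×ˢ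
        (Finset.univ ×ˢ (Finset.univ ×ˢ Finset.univ)) with hT'
    have h1 : T.card ≤ T'.card := by
      refine Finset.card_le_card_of_injOn
        (fun z => ((eP M b z.1).1, (eP M b z.1).2, z.2.1, z.2.2)) ?_ ?_
      · intro z hz
        rw [Finset.mem_coe, hT, Finset.mem_filter] at hz
        rw [Finset.mem_coe, hT', Finset.mem_product, Finset.mem_filter]
        refine ⟨⟨Finset.mem_univ _, z.2.1, ?_⟩, by simp⟩
        rw [← hz.2, vr, Equiv.symm_apply_apply]
      · intro z _ z' _ h
        simp only [Prod.mk.injEq] at h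
        have h2 : eP M b z.1 = eP M b z'.1 := Prod.ext h.1 h.2.1
        exact Prod.ext ((eP M b).injective h2) (Prod.ext h.2.2.1 h.2.2.2)
    refine h1.trans ?_
    rw [hT', Finset.card_product, Finset.card_product, Finset.card_product]
    simp only [Finset.card_univ, Fintype.card_fun, Fintype.card_fin, Fintype.card_bool]
    calc _ ≤ Δ * (b ^ 3 * (3 * 2 ^ 3)) := Nat.mul_le_mul_right _ (hdeg _)
      _ = 24 * Δ * b ^ 3 := by ring
  have hpos : 0 < 24 * Δ * b ^ 3 := by positivity
  refine ⟨fun z => if h : z ∈ T then Fin.castLE hcard (T.equivFin ⟨z, h⟩) else ⟨0, hpos⟩, ?_⟩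
  intro z z' hz hz' h
  have h1 : z ∈ T := by rw [hT, Finset.mem_filter]; exact ⟨Finset.mem_univ _, hz⟩
  have h2 : z' ∈ T := by rw [hT, Finset.mem_filter]; exact ⟨Finset.mem_univ _, hz'⟩
  simp only [dif_pos h1, dif_pos h2] at h
  have h3 := (Fin.castLE_injective hcard).eq_iff.1 h
  have h4 := T.equivFin.injective h3
  exact congrArg Subtype.val h4

/-- bad pairs -/
def bad {m b M : ℕ} (A : Fin M → Fin 3 → Fin m) (s : Fin M → Bool) (S : Fin m → Fin b)
    (p : Fin (M * b ^ 3)) (a : Loc) : Prop :=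
  (eP M b p).2 = (fun t => S (A (eP M b p).1 t)) ∧
    ¬ (∏ t, SDX.sg (a t) = SDX.sg (s (eP M b p).1))

open Classical in
theorem card_bad {m b M : ℕ} (A : Fin M → Fin 3 → Fin m) (s : Fin M → Bool) (S : Fin m → Fin b)
    (y : Fin (m * b) → Bool) :
    ((Finset.univ.filter fun p => bad A s S p fun t => y (vr A p t)).card : ℝ)
      = M - (((Finset.univ : Finset (Fin M)).filter fun e =>
        ∏ t, SDX.sg (y (finProdFinEquiv (A e t, S (A e t)))) = SDX.sg (s e)).card : ℝ) := by
  have h1 : (Finset.univ.filter fun p => bad A s S p fun t => y (vr A p t)).card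
      = ((Finset.univ : Finset (Fin M)).filter fun e =>
        ¬ (∏ t, SDX.sg (y (finProdFinEquiv (A e t, S (A e t)))) = SDX.sg (s e))).card := by
    refine Finset.card_bij' (fun p _ => (eP M b p).1)
      (fun e _ => (eP M b).symm (e, fun t => S (A e t))) ?_ ?_ ?_ ?_
    · intro p hp
      rw [Finset.mem_filter] at hp ⊢
      refine ⟨Finset.mem_univ _, ?_⟩
      have h2 := hp.2.2
      simp only [vr] at h2
      rw [hp.2.1] at h2
      exact h2
    · intro e he
      rw [Finset.mem_filter] at he ⊢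
      refine ⟨Finset.mem_univ _, ?_, ?_⟩
      · simp only [Equiv.apply_symm_apply]
      · simp only [vr, Equiv.apply_symm_apply]
        exact he.2
    · intro p hp
      rw [Finset.mem_filter] at hp
      rw [Equiv.symm_apply_eq]
      exact Prod.ext rfl hp.2.1.symm
    · intro e _
      simp only [Equiv.apply_symm_apply]
  have h2 := Finset.card_filter_add_card_filter_not (s := (Finset.univ : Finset (Fin M)))
    (fun e => ∏ t, SDX.sg (y (finProdFinEquiv (A e t, S (A e t)))) = SDX.sg (s e))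
  rw [Finset.card_univ, Fintype.card_fin] at h2
  rw [h1, eq_sub_iff_add_eq, add_comm]
  exact_mod_cast h2

end h70

open h70

open Classical in
theorem reduction {m b M Δ : ℕ} (hm : 0 < m) (hb : 0 < b) (hM : 0 < M) (hΔ : 0 < Δ)
    (A : Fin M → Fin 3 → Fin m) (s : Fin M → Bool) (hA : ∀ e, Function.Injective (A e))
    (hdeg : ∀ j, (Finset.univ.filter fun e => ∃ t, A e t = j).card ≤ Δ)
    (hval : ∀ y : Fin m → Bool, (((Finset.univ : Finset (Fin M)).filter fun e =>
        ∏ t, SDX.sg (y (A e t)) = SDX.sg (s e)).card : ℝ) ≤ 3 / 4 * M)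
    (n : ℕ) (hn : 3 * (9 * (M * b ^ 3) + m * b * (2 + 3 * (24 * Δ * b ^ 3)) + 1) < n) :
    ∃ (T : (Fin m × Fin b → Bool) → Equiv.Perm (Fin n))
      (dist : (Fin m → Fin b) → Fin n → Fin n → ℝ),
      (∀ x, (T x).IsCycleOn Set.univ) ∧
      (∀ S u v, dist S u v = 1 ∨ dist S u v = 2) ∧ (∀ S u v, dist S u v = dist S v u) ∧
      (∀ S x, ∑ v, dist S v (T x v) = n + (M - (((Finset.univ : Finset (Fin M)).filter
          fun e => ∏ t, SDX.sg (SDX.rs S x (A e t)) = SDX.sg (s e)).card : ℝ))) ∧
      (∀ S (C : Equiv.Perm (Fin n)), C.IsCycleOn Set.univ →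
        (n : ℝ) + M / (16 * Δ) ≤ ∑ v, dist S v (C v)) := by
  set P : ℕ := M * b ^ 3 with hP
  set U : ℕ := m * b with hU
  set K : ℕ := 24 * Δ * b ^ 3 with hK
  have hP0 : 0 < P := by positivity
  have hU0 : 0 < U := by positivity
  have hK0 : 0 < K := by positivity
  choose f hf using fun u : Fin U => exists_slot hb hΔ A hdeg u
  let D : Data P U K :=
    { var := vr A
      slot := fun p t a => f (vr A p t) (p, t, a)
      inj := by
        intro p t a p' t' a' h1 h2
        rw [← h1] at h2
        have h3 := hf (vr A p t) (p, t, a) (p', t', a') rfl h1.symm h2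
        simp only [Prod.mk.injEq] at h3
        exact h3 }
  set Z : ℕ := n - 3 * (9 * P + U * (2 + 3 * K) + 1) with hZ
  have hZ0 : 0 < Z := Nat.sub_pos_of_lt hn
  let ψ : City P U K Z ≃ Fin n := Fintype.equivFinOfCardEq (by
    rw [Fintype.card_sum, Fintype.card_prod, card_node, Fintype.card_fin, Fintype.card_fin]
    omega)
  have htour := fun x : Fin m × Fin b → Bool =>
    exists_tour (Z := Z) hP0 hU0 hK0 hZ0 D (fun u => x (finProdFinEquiv.symm u))
  choose C₀ hC₀ hcost using htour
  have hsum : ∀ S (C : Equiv.Perm (City P U K Z)),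
      ∑ v, (if Near D (bad A s S) (ψ.symm v) (ψ.symm (ψ.permCongr C v)) then (1 : ℝ) else 2)
        = n + cost D (bad A s S) C := by
    intro S C
    have h1 : ∀ v : Fin n, (if Near D (bad A s S) (ψ.symm v) (ψ.symm (ψ.permCongr C v))
        then (1 : ℝ) else 2)
          = 1 + (if ¬ Near D (bad A s S) (ψ.symm v) (C (ψ.symm v)) then 1 else 0) := by
      intro v
      rw [Equiv.permCongr_apply, Equiv.symm_apply_apply]
      by_cases h : Near D (bad A s S) (ψ.symm v) (C (ψ.symm v))
      · rw [if_pos h, if_neg (not_not.2 h), add_zero]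
      · rw [if_neg h, if_pos h]
        norm_num
    rw [Finset.sum_congr rfl fun v _ => h1 v, Finset.sum_add_distrib, Finset.sum_const,
      Finset.card_univ, Fintype.card_fin, nsmul_eq_mul, mul_one]
    congr 1
    rw [Equiv.sum_comp ψ.symm (fun x => if ¬ Near D (bad A s S) x (C x) then (1 : ℝ) else 0),
      Finset.sum_boole, cost]
  refine ⟨fun x => ψ.permCongr (C₀ x), fun S u v =>
    if Near D (bad A s S) (ψ.symm u) (ψ.symm v) then 1 else 2, fun x => cyc ψ _ (hC₀ x), ?_, ?_,
    ?_, ?_⟩
  · intro S u v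
    dsimp only
    split_ifs
    · exact Or.inl rfl
    · exact Or.inr rfl
  · intro S u v
    dsimp only
    have h1 : Near D (bad A s S) (ψ.symm u) (ψ.symm v)
        ↔ Near D (bad A s S) (ψ.symm v) (ψ.symm u) := by
      unfold Near
      exact Or.comm
    simp only [h1]
  · intro S x
    have h1 := hsum S (C₀ x)
    rw [hcost] at h1
    refine h1.trans ?_
    congr 1
    have h2 := card_bad A s S (fun u => x (finProdFinEquiv.symm u))
    simp only [Equiv.symm_apply_apply] at h2
    exact h2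
  · intro S C hC
    set C' : Equiv.Perm (City P U K Z) := ψ.symm.permCongr C with hC'
    have h0 : ψ.permCongr C' = C := by
      ext v
      simp [hC', Equiv.permCongr_apply]
    have h1 := hsum S C'
    rw [h0] at h1
    refine le_of_le_of_eq ?_ h1.symm
    have h2 : C'.IsCycleOn Set.univ := cyc ψ.symm C hC
    have hrel : ∀ u, (Finset.univ.filter fun p => (∃ a, bad A s S p a) ∧ ∃ t, D.var p t = u).card
        ≤ Δ := by
      intro u
      refine le_trans ?_ (hdeg (finProdFinEquiv.symm u).1)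
      refine Finset.card_le_card_of_injOn (fun p => (eP M b p).1) ?_ ?_
      · intro p hp
        rw [Finset.mem_coe, Finset.mem_filter] at hp ⊢
        obtain ⟨-, -, t, ht⟩ := hp
        refine ⟨Finset.mem_univ _, t, ?_⟩
        rw [← ht]
        change _ = (finProdFinEquiv.symm (vr A p t)).1
        rw [vr, Equiv.symm_apply_apply]
      · intro p hp p' hp' h
        rw [Finset.mem_coe, Finset.mem_filter] at hp hp'
        obtain ⟨-, ⟨a, ha⟩, -⟩ := hp
        obtain ⟨-, ⟨a', ha'⟩, -⟩ := hp'
        dsimp only at h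
        refine (eP M b).injective (Prod.ext h ?_)
        rw [ha.1, ha'.1, h]
    obtain ⟨y, hy⟩ := count hP0 hU0 hK0 D (bad A s S) Δ hΔ hrel C' h2
    have h3 := card_bad A s S y
    have h4 := hval fun j => y (finProdFinEquiv (j, S j))
    have h5 : ((Finset.univ.filter fun p => bad A s S p fun t => y (D.var p t)).card : ℝ)
        ≤ 4 * Δ * cost D (bad A s S) C' := by exact_mod_cast hy
    have h6 : ((Finset.univ.filter fun p => bad A s S p fun t => y (D.var p t)).card : ℝ)
        = ((Finset.univ.filter fun p => bad A s S p fun t => y (vr A p t)).card : ℝ) := rfl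
    rw [h6, h3] at h5
    have hΔ' : (0 : ℝ) < Δ := by exact_mod_cast hΔ
    have h7 : (M : ℝ) / (16 * Δ) ≤ cost D (bad A s S) C' := by
      rw [div_le_iff₀ (by positivity)]
      linarith
    linarith

end SALES
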