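import Pool.Agent.SALES.Decode

/-!
# SALES, row B: from a tour to the relation between the nodes

At a node without long edges the in, middle and out copies are consecutive on the tour, so its next
and previous nodes are unique and joined by arcs; two such nodes do not form a cycle.
-/

set_option autoImplicit false

namespace SALES

/-- joined by a directed edge -/
def Near0 {P U K Z : ℕ} (D : Data P U K) (x y : City P U K Z) : Prop := Dir D x y ∨ Dir D y x

/-- the tour `C` goes from the out copy of `v` to the in copy of `w`, in one of the directions -/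
def relT {P U K Z : ℕ} (C : Equiv.Perm (City P U K Z)) (v w : Node P U K) : Prop :=
  C (.inl (v, 2)) = .inl (w, 0) ∨ C (.inl (w, 0)) = .inl (v, 2)

/-- no long edge at the three copies of `v` -/
def goodT {P U K Z : ℕ} (D : Data P U K) (C : Equiv.Perm (City P U K Z)) (v : Node P U K) : Prop :=
  ∀ i : Fin 3, Near0 D (.inl (v, i)) (C (.inl (v, i))) ∧
    Near0 D (.inl (v, i)) (C.symm (.inl (v, i)))

namespace h78

/-- neighbours on the tour -/
def Nb {α : Type} (C : Equiv.Perm α) (x y : α) : Prop := C x = y ∨ C y = x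

theorem nb_symm {α : Type} {C : Equiv.Perm α} {x y : α} (h : Nb C x y) : Nb C y x := h.symm

theorem nb_next {α : Type} (C : Equiv.Perm α) (x : α) : Nb C x (C x) := Or.inl rfl

theorem nb_prev {α : Type} (C : Equiv.Perm α) (x : α) : Nb C x (C.symm x) :=
  Or.inr (C.apply_symm_apply x)

theorem nb_iff {α : Type} {C : Equiv.Perm α} {x y : α} : Nb C x y ↔ y = C x ∨ y = C.symm x := by
  unfold Nb
  rw [Equiv.eq_symm_apply]
  constructor
  · rintro (h | h)
    · exact Or.inl h.symm
    · exact Or.inr h
  · rintro (h | h)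
    · exact Or.inl h.symm
    · exact Or.inr h

/-- there are at most two neighbours -/
theorem nb_two {α : Type} {C : Equiv.Perm α} {x y z w : α} (hy : Nb C x y) (hz : Nb C x z)
    (hyz : y ≠ z) (hw : Nb C x w) : w = y ∨ w = z := by
  rw [nb_iff] at hy hz hw
  rcases hy with rfl | rfl <;> rcases hz with rfl | rfl <;> rcases hw with rfl | rfl <;>
    simp_all

/-- a closed set is everything -/
theorem closed_univ {α : Type} [Fintype α] {C : Equiv.Perm α} (hC : C.IsCycleOn Set.univ)
    (X : Set α) {x : α} (hx : x ∈ X) (hX : ∀ y ∈ X, C y ∈ X) (y : α) : y ∈ X := by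
  obtain ⟨n, hn⟩ := (hC.2 (Set.mem_univ x) (Set.mem_univ y)).exists_nat_pow_eq
  rw [← hn]
  clear hn
  induction n with
  | zero => exact hx
  | succ n ih => rw [pow_succ', Equiv.Perm.mul_apply]; exact hX _ ih

/-- no short cycle -/
theorem next_ne_prev {α : Type} [Fintype α] {C : Equiv.Perm α} (hC : C.IsCycleOn Set.univ)
    (x a b c : α) (hab : a ≠ b) (hac : a ≠ c) (hbc : b ≠ c) : C x ≠ C.symm x := by
  intro h
  have h2 : C (C x) = x := by rw [h]; exact C.apply_symm_apply x
  have h3 : ∀ y, y = x ∨ y = C x := by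
    refine closed_univ hC {y | y = x ∨ y = C x} (Or.inl rfl) ?_
    rintro y (rfl | rfl)
    · exact Or.inr rfl
    · exact Or.inl h2
  rcases h3 a with rfl | rfl <;> rcases h3 b with h4 | h4 <;> rcases h3 c with h5 | h5 <;>
    simp_all

variable {P U K Z : ℕ} {D : Data P U K} {C : Equiv.Perm (City P U K Z)}

theorem near_mid {v : Node P U K} {y : City P U K Z} (h : Near0 D (.inl (v, 1)) y) :
    y = .inl (v, 0) ∨ y = .inl (v, 2) := by
  rcases y with ⟨w, j⟩ | z
  · rcases h with h | h
    · rcases h with ⟨rfl, h⟩ | ⟨h, _⟩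
      · right
        have : j = 2 := Fin.ext h
        rw [this]
      · exact absurd h (by decide)
    · rcases h with ⟨rfl, h⟩ | ⟨_, h, _⟩
      · left
        have : j = 0 := by
          apply Fin.ext
          have h' : (1 : ℕ) = j.val + 1 := h
          show j.val = 0
          omega
        rw [this]
      · exact absurd h (by decide)
  · rcases h with h | h
    · exact absurd h.2.1 (by decide)
    · exact absurd h.2.1 (by decide)

theorem near_out {v : Node P U K} (hv : v ≠ .o) {y : City P U K Z}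
    (h : Near0 D (.inl (v, 2)) y) : y = .inl (v, 1) ∨ ∃ w, y = .inl (w, 0) ∧ Arc D v w := by
  rcases y with ⟨w, j⟩ | z
  · rcases h with h | h
    · rcases h with ⟨rfl, h⟩ | ⟨_, rfl, h⟩
      · have h' : j.val = 3 := h
        have := j.isLt
        omega
      · exact Or.inr ⟨w, rfl, h⟩
    · rcases h with ⟨rfl, h⟩ | ⟨_, h, _⟩
      · left
        have : j = 1 := by
          apply Fin.ext
          have h' : (2 : ℕ) = j.val + 1 := h
          show j.val = 1
          omega
        rw [this]
      · exact absurd h (by decide)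
  · rcases h with h | h
    · exact absurd h.1 hv
    · exact absurd h.2.1 (by decide)

theorem near_in {w : Node P U K} (hw : ∀ p : Fin P, p.val = 0 → w ≠ .d p) {y : City P U K Z}
    (h : Near0 D (.inl (w, 0)) y) : y = .inl (w, 1) ∨ ∃ v, y = .inl (v, 2) ∧ Arc D v w := by
  rcases y with ⟨v, j⟩ | z
  · rcases h with h | h
    · rcases h with ⟨rfl, h⟩ | ⟨h, _⟩
      · left
        have : j = 1 := Fin.ext h
        rw [this]
      · exact absurd h (by decide)
    · rcases h with ⟨rfl, h⟩ | ⟨rfl, _, h⟩
      · have h' : (0 : ℕ) = j.val + 1 := h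
        omega
      · exact Or.inr ⟨v, rfl, h⟩
  · rcases h with h | h
    · exact absurd h.2.1 (by decide)
    · obtain ⟨_, _, p, hp, hwp⟩ := h
      exact absurd hwp (hw p hp)

theorem ne_copy {v w : Node P U K} {i j : Fin 3} (h : i ≠ j) :
    (.inl (v, i) : City P U K Z) ≠ .inl (w, j) := by
  intro h1
  exact h (congrArg Prod.snd (Sum.inl.inj h1))

theorem ne_prev (hC : C.IsCycleOn Set.univ) (v : Node P U K) (x : City P U K Z) :
    C x ≠ C.symm x :=
  next_ne_prev hC x (.inl (v, 0)) (.inl (v, 1)) (.inl (v, 2)) (ne_copy (by decide))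
    (ne_copy (by decide)) (ne_copy (by decide))

theorem mid (hC : C.IsCycleOn Set.univ) {v : Node P U K} (hv : goodT D C v) :
    Nb C (.inl (v, 1)) (.inl (v, 0)) ∧ Nb C (.inl (v, 1)) (.inl (v, 2)) := by
  have h1 := near_mid (hv 1).1
  have h2 := near_mid (hv 1).2
  have h3 := ne_prev hC v (.inl (v, 1))
  have h4 := nb_next C (.inl (v, 1))
  have h5 := nb_prev C (.inl (v, 1))
  rcases h1 with h1 | h1 <;> rcases h2 with h2 | h2
  · rw [h1, h2] at h3; exact absurd rfl h3
  · rw [h1] at h4; rw [h2] at h5; exact ⟨h4, h5⟩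
  · rw [h1] at h4; rw [h2] at h5; exact ⟨h5, h4⟩
  · rw [h1, h2] at h3; exact absurd rfl h3

/-- there is a neighbour different from a given one -/
theorem exists_nb (hC : C.IsCycleOn Set.univ) {v : Node P U K} (hv : goodT D C v) (i : Fin 3)
    (y : City P U K Z) : ∃ z, z ≠ y ∧ Nb C (.inl (v, i)) z ∧ Near0 D (.inl (v, i)) z := by
  have h3 := ne_prev hC v (.inl (v, i))
  by_cases h : C (.inl (v, i)) = y
  · exact ⟨_, fun h' => h3 (h.trans h'.symm), nb_prev C _, (hv i).2⟩
  · exact ⟨_, h, nb_next C _, (hv i).1⟩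

theorem nb_of_rel {v w : Node P U K} (h : relT C v w) : Nb C (.inl (v, 2)) (.inl (w, 0)) := h

end h78

open h78 in
/-- row B -/
theorem rel_tour {P U K Z : ℕ} (hP : 0 < P) (hU : 0 < U) (D : Data P U K)
    (C : Equiv.Perm (City P U K Z)) (hC : C.IsCycleOn Set.univ) :
    Rel D (relT C) (goodT D C) := by
  refine ⟨?_, ?_, ?_⟩
  · intro v hv hvo
    obtain ⟨h0, h2⟩ := mid hC hv
    obtain ⟨z, hz, hnb, hne⟩ := exists_nb hC hv 2 (.inl (v, 1))
    rcases near_out hvo hne with h | ⟨w, rfl, hA⟩
    · exact absurd h hz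
    · refine ⟨w, hnb, hA, fun w' hw' => ?_⟩
      rcases nb_two (nb_symm h2) hnb (ne_copy (by decide)) (nb_of_rel hw') with h | h
      · exact absurd h (ne_copy (by decide))
      · exact congrArg Prod.fst (Sum.inl.inj h)
  · intro w hw hwd
    obtain ⟨h0, h2⟩ := mid hC hw
    obtain ⟨z, hz, hnb, hne⟩ := exists_nb hC hw 0 (.inl (w, 1))
    rcases near_in hwd hne with h | ⟨v, rfl, hA⟩
    · exact absurd h hz
    · refine ⟨v, nb_symm hnb, hA, fun v' hv' => ?_⟩
      rcases nb_two (nb_symm h0) hnb (ne_copy (by decide)) (nb_symm (nb_of_rel hv')) with h | h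
      · exact absurd h (ne_copy (by decide))
      · exact congrArg Prod.fst (Sum.inl.inj h)
  · intro v w hv hw hvw hwv
    obtain ⟨v0, v2⟩ := mid hC hv
    obtain ⟨w0, w2⟩ := mid hC hw
    have hvw' := nb_of_rel hvw
    have hwv' := nb_of_rel hwv
    let X : Set (City P U K Z) := {x | ∃ i : Fin 3, x = .inl (v, i) ∨ x = .inl (w, i)}
    have hX : ∀ y ∈ X, C y ∈ X := by
      have key : ∀ v w : Node P U K, Nb C (.inl (v, 1)) (.inl (v, 0)) →
          Nb C (.inl (v, 1)) (.inl (v, 2)) → Nb C (.inl (v, 2)) (.inl (w, 0)) →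
          Nb C (.inl (w, 2)) (.inl (v, 0)) → ∀ i : Fin 3, ∃ j : Fin 3,
            C (.inl (v, i)) = .inl (v, j) ∨ C (.inl (v, i)) = .inl (w, j) := by
        intro v w h0 h2 hvw hwv i
        fin_cases i
        · rcases nb_two (nb_symm h0) (nb_symm hwv) (ne_copy (by decide)) (nb_next C _) with h | h
          · exact ⟨1, Or.inl h⟩
          · exact ⟨2, Or.inr h⟩
        · rcases nb_two h0 h2 (ne_copy (by decide)) (nb_next C _) with h | h
          · exact ⟨0, Or.inl h⟩
          · exact ⟨2, Or.inl h⟩
        · rcases nb_two (nb_symm h2) hvw (ne_copy (by decide)) (nb_next C _) with h | h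
          · exact ⟨1, Or.inl h⟩
          · exact ⟨0, Or.inr h⟩
      rintro y ⟨i, rfl | rfl⟩
      · obtain ⟨j, h⟩ := key v w v0 v2 hvw' hwv' i
        exact ⟨j, h⟩
      · obtain ⟨j, h⟩ := key w v w0 w2 hwv' hvw' i
        exact ⟨j, h.symm⟩
    have hall : ∀ y, y ∈ X := closed_univ hC X (x := .inl (v, 0)) ⟨0, Or.inl rfl⟩ hX
    have hnode : ∀ y : Node P U K, y = v ∨ y = w := by
      intro y
      obtain ⟨i, h | h⟩ := hall (.inl (y, 0))
      · exact Or.inl (congrArg Prod.fst (Sum.inl.inj h))
      · exact Or.inr (congrArg Prod.fst (Sum.inl.inj h))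
    have h1 := hnode (.d ⟨0, hP⟩)
    have h2 := hnode (.e ⟨0, hU⟩)
    have h3 := hnode .o
    rcases h1 with h1 | h1 <;> rcases h2 with h2 | h2 <;> rcases h3 with h3 | h3 <;>
      first
        | exact absurd (h1.trans h2.symm) (by simp)
        | exact absurd (h1.trans h3.symm) (by simp)
        | exact absurd (h2.trans h3.symm) (by simp)

open Classical in
theorem card_defect {P U K Z : ℕ} (D : Data P U K) (C : Equiv.Perm (City P U K Z)) :
    (Finset.univ.filter fun v => ¬ goodT D C v).card
      ≤ 2 * (Finset.univ.filter fun x => ¬ Near0 D x (C x)).card := by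
  set B := Finset.univ.filter fun x => ¬ Near0 D x (C x) with hB
  let φ : City P U K Z → Node P U K := fun x => x.elim Prod.fst fun _ => .o
  have hsub : (Finset.univ.filter fun v => ¬ goodT D C v) ⊆
      B.image φ ∪ B.image fun x => φ (C x) := by
    intro v hv
    rw [Finset.mem_filter] at hv
    have h1 := hv.2
    unfold goodT at h1
    rw [not_forall] at h1
    obtain ⟨i, hi⟩ := h1
    rw [Finset.mem_union, Finset.mem_image, Finset.mem_image]
    by_cases h2 : Near0 D (.inl (v, i)) (C (.inl (v, i)))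
    · right
      refine ⟨C.symm (.inl (v, i)), ?_, ?_⟩
      · rw [hB, Finset.mem_filter]
        refine ⟨Finset.mem_univ _, fun h => hi ⟨h2, ?_⟩⟩
        rw [C.apply_symm_apply] at h
        exact h.symm
      · show φ (C (C.symm (.inl (v, i)))) = v
        rw [C.apply_symm_apply]
        rfl
    · left
      refine ⟨.inl (v, i), ?_, rfl⟩
      rw [hB, Finset.mem_filter]
      exact ⟨Finset.mem_univ _, h2⟩
  calc (Finset.univ.filter fun v => ¬ goodT D C v).card
      ≤ (B.image φ ∪ B.image fun x => φ (C x)).card := Finset.card_le_card hsub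
    _ ≤ (B.image φ).card + (B.image fun x => φ (C x)).card := Finset.card_union_le _ _
    _ ≤ B.card + B.card := add_le_add Finset.card_image_le Finset.card_image_le
    _ = 2 * B.card := by ring

end SALES
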